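import Mathlib
import Pool.Agent.NH20.NF.Pairs

/-!
# The pairs `(q, x)` with `‖q (θ + x_1 λ_1 + ... + x_n λ_n)‖` small, for arbitrary real `λ_i`
-/

set_option autoImplicit false

open Finset Filter Topology

namespace Pool.Agent.NH20.NG

open Pool.Agent.NH20.NF

/-- `min (B, 1 / ‖x‖)` -/
noncomputable def gn (B x : ℝ) : ℝ := (max (nd x) B⁻¹)⁻¹

lemma gn_pos {B : ℝ} (hB : 0 < B) (x : ℝ) : 0 < gn B x := by
  unfold gn
  have : 0 < B⁻¹ := by positivity
  have h : 0 < max (nd x) B⁻¹ := lt_of_lt_of_le this (le_max_right _ _)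
  positivity

lemma gn_le_B {B : ℝ} (hB : 0 < B) (x : ℝ) : gn B x ≤ B := by
  unfold gn
  have h1 : 0 < B⁻¹ := by positivity
  have h2 : B⁻¹ ≤ max (nd x) B⁻¹ := le_max_right _ _
  calc (max (nd x) B⁻¹)⁻¹ ≤ (B⁻¹)⁻¹ := inv_anti₀ h1 h2
    _ = B := inv_inv B

lemma gn_le_inv {B x : ℝ} (hx : 0 < nd x) : gn B x ≤ (nd x)⁻¹ := by
  unfold gn
  exact inv_anti₀ hx (le_max_left _ _)

lemma le_gn {B x u : ℝ} (hB : 0 < B) (h1 : u ≤ B) (h2 : 0 < nd x → u ≤ 1 / nd x) : u ≤ gn B x := by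
  unfold gn
  rcases le_total (nd x) B⁻¹ with h | h
  · rw [max_eq_right h, inv_inv]
    exact h1
  · rw [max_eq_left h, ← one_div]
    exact h2 (lt_of_lt_of_le (by positivity) h)

lemma geo' (s : ℝ) (H : ℕ) : ‖∑ x ∈ Icc (-(H : ℤ)) H, ee (s * x)‖ ≤ gn (2 * H + 1) s := by
  apply le_gn (by positivity)
  · refine (norm_sum_le _ _).trans ?_
    simp_rw [norm_ee]
    rw [Finset.sum_const, card_box, nsmul_eq_mul, mul_one]
    push_cast
    exact le_rfl
  · intro hs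
    exact (geo s hs H).trans (min_le_right _ _)

lemma exists_level' (B : ℝ) (hB : 0 < B) (J : ℕ) (hBJ : B ≤ 2 ^ J) (x : ℝ) :
    ∃ j : Fin (J + 1), nd x ≤ ((2 : ℝ) ^ (j : ℕ))⁻¹ ∧ gn B x ≤ 2 ^ ((j : ℕ) + 1) := by
  classical
  have hP0 : (2 : ℝ) ^ 0 * nd x ≤ 1 := by
    have := nd_le_half x
    rw [pow_zero]
    linarith
  set j := Nat.findGreatest (fun j => (2 : ℝ) ^ j * nd x ≤ 1) J with hj
  have h1 : (2 : ℝ) ^ j * nd x ≤ 1 :=
    Nat.findGreatest_spec (P := fun j => (2 : ℝ) ^ j * nd x ≤ 1) (Nat.zero_le J) hP0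
  have h2 : j ≤ J := Nat.findGreatest_le J
  refine ⟨⟨j, by omega⟩, ?_, ?_⟩
  · rw [← one_div, le_div_iff₀ (by positivity), mul_comm]
    exact h1
  · rcases Nat.lt_or_ge j J with h3 | h3
    · have h4 : ¬ ((2 : ℝ) ^ (j + 1) * nd x ≤ 1) :=
        Nat.findGreatest_is_greatest (P := fun j => (2 : ℝ) ^ j * nd x ≤ 1) (n := J)
          (Nat.lt_succ_self _) h3
      push Not at h4
      have hx : 0 < nd x := by
        rcases (nd_nonneg x).lt_or_eq with h | h
        · exact h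
        · rw [← h, mul_zero] at h4
          linarith
      refine (gn_le_inv hx).trans ?_
      rw [← one_div, div_le_iff₀ hx]
      exact h4.le
    · have h4 : j = J := le_antisymm h2 h3
      refine (gn_le_B hB x).trans (hBJ.trans ?_)
      exact pow_le_pow_right₀ (by norm_num) (by simp only; omega)

lemma box_sum' {n : ℕ} (lam : Fin n → ℝ) (l H : ℕ) :
    ‖∑ x ∈ bx n H, ee (l * lf lam x)‖ ≤ ∏ i, gn (2 * H + 1) (l * lam i) := by
  have h1 : ∀ x ∈ bx n H, ee (l * lf lam x) = ∏ i, ee (l * lam i * (x i : ℝ)) := by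
    intro x _
    rw [← ee_sum]
    congr 1
    unfold lf
    rw [Finset.mul_sum]
    exact Finset.sum_congr rfl fun i _ => by ring
  rw [Finset.sum_congr rfl h1]
  have h2 := Finset.prod_univ_sum (fun _ : Fin n => Icc (-(H : ℤ)) H)
    (fun i (j : ℤ) => ee (l * lam i * (j : ℝ)))
  unfold bx
  rw [← h2, norm_prod]
  exact Finset.prod_le_prod (fun i _ => norm_nonneg _) fun i _ => geo' _ H

/-- **The pairs** `(q, x)` with `‖q (θ + x_1 λ_1 + ... + x_n λ_n)‖ ≤ 1 / (8 K)` -/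
theorem pairs' {n : ℕ} (lam : Fin n → ℝ) (θ : ℝ) (K F H : ℕ) (hK : 1 ≤ K) :
    (((Icc 1 F ×ˢ bx n H).filter (fun a : ℕ × (Fin n → ℤ) =>
      nd (a.1 * (θ + lf lam a.2)) ≤ 1 / (8 * K))).card : ℝ) ≤
      4 / K * (F * (2 * H + 1) ^ n + 2 * ∑ l ∈ Icc 1 (K * F), (l.divisors.card : ℝ) *
        ∏ i, gn (2 * H + 1) (l * lam i)) := by
  classical
  have hK0 : (0 : ℝ) < K := by exact_mod_cast (by omega : 0 < K)
  set g : ℕ → ℝ := fun l => ∏ i, gn (2 * H + 1) (l * lam i) with hg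
  have hB0 : (0 : ℝ) < 2 * H + 1 := by positivity
  have hg0 : ∀ l, 0 ≤ g l := fun l => Finset.prod_nonneg fun i _ => (gn_pos hB0 _).le
  have h1 := fejer (Icc 1 F ×ˢ bx n H) (fun a : ℕ × (Fin n → ℤ) => a.1 * (θ + lf lam a.2)) K hK
    (fun k => ∑ q ∈ Icc 1 F, g (k * q)) (by
      intro k hk _
      rw [Finset.sum_product]
      refine (norm_sum_le _ _).trans (Finset.sum_le_sum fun q hq => ?_)
      rw [Finset.mem_Icc] at hq
      have h2 : ∀ x ∈ bx n H, ee ((k : ℝ) * ((q : ℝ) * (θ + lf lam x))) =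
          ee ((k : ℝ) * q * θ) * ee (((k * q : ℕ) : ℝ) * lf lam x) := by
        intro x _
        rw [← ee_add]
        congr 1
        push_cast
        ring
      simp only
      rw [Finset.sum_congr rfl h2, ← Finset.mul_sum, norm_mul, norm_ee, one_mul]
      exact box_sum' lam (k * q) H)
  refine h1.trans ?_
  apply mul_le_mul_of_nonneg_left _ (by positivity)
  have h2 : ((Icc 1 F ×ˢ bx n H).card : ℝ) = F * (2 * H + 1) ^ n := by
    rw [Finset.card_product, card_bx, Nat.card_Icc]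
    push_cast
    ring_nf
  rw [h2]
  have h3 := sum_mul_le g hg0 K F
  linarith

end Pool.Agent.NH20.NG
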