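import Mathlib
import Pool.Agent.NH20.NG.Gn
import Pool.Agent.NH20.NF.Exc

/-!
# Counting `l ≤ M` with `‖l ω_i / β‖ ≤ a_i`, uniformly in the real number `β`
-/

set_option autoImplicit false

open Finset Filter Topology

namespace Pool.Agent.NH20.NG

open Pool.Agent.NH20.NF

/-- integral linear independence -/
def LI {n : ℕ} (ω : Fin n → ℝ) : Prop := ∀ b : Fin n → ℤ, ∑ i, (b i : ℝ) * ω i = 0 → b = 0

lemma LI.ne_zero {n : ℕ} {ω : Fin n → ℝ} (hω : LI ω) (j : Fin n) : ω j ≠ 0 := by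
  classical
  intro h
  have h1 := hω (Pi.single j 1) (by
    rw [Finset.sum_eq_single j]
    · rw [h, mul_zero]
    · intro i _ hi
      rw [Pi.single_eq_of_ne hi]
      simp
    · intro hj
      exact absurd (Finset.mem_univ j) hj)
  have h2 := congrFun h1 j
  rw [Pi.single_eq_same] at h2
  simp at h2

/-- the quotients by `ω_j` -/
noncomputable def quo {n : ℕ} (ω : Fin (n + 1) → ℝ) (j : Fin (n + 1)) (i : Fin n) : ℝ :=
  ω (j.succAbove i) / ω j

lemma ind_quo {n : ℕ} {ω : Fin (n + 1) → ℝ} (hω : LI ω) (j : Fin (n + 1)) : Ind (quo ω j) := by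
  intro a b hab
  have hj := hω.ne_zero j
  have h1 := hω (j.insertNth a b) (by
    rw [Fin.sum_univ_succAbove _ j]
    simp only [Fin.insertNth_apply_same, Fin.insertNth_apply_succAbove]
    have h2 : ω j * ((a : ℝ) + ∑ i, (b i : ℝ) * quo ω j i) = 0 := by rw [hab, mul_zero]
    rw [mul_add, Finset.mul_sum] at h2
    have h3 : ∀ i, ω j * ((b i : ℝ) * quo ω j i) = (b i : ℝ) * ω (j.succAbove i) := by
      intro i
      unfold quo
      field_simp
    simp_rw [h3] at h2
    linarith)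
  constructor
  · have := congrFun h1 j
    rw [Fin.insertNth_apply_same] at this
    exact this
  · funext i
    have := congrFun h1 (j.succAbove i)
    rw [Fin.insertNth_apply_succAbove] at this
    exact this

lemma fiber (lam a : ℝ) (hl : lam ≠ 0) (ha : 0 ≤ a) (m : ℤ) (S : Finset ℕ)
    (hS : ∀ l ∈ S, |(l : ℝ) * lam - m| ≤ a) : (S.card : ℝ) ≤ 2 * a / |lam| + 1 := by
  have hl' : 0 < |lam| := abs_pos.2 hl
  have h1 := spacing S (fun l : ℕ => (l : ℝ)) ((m : ℝ) / lam - a / |lam|) ((m : ℝ) / lam + a / |lam|)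
    1 one_pos (by
      intro l hlS
      have h2 := hS l hlS
      have h3 : |(l : ℝ) - m / lam| ≤ a / |lam| := by
        have h4 : (l : ℝ) - m / lam = (l * lam - m) / lam := by field_simp
        rw [h4, abs_div]
        exact div_le_div_of_nonneg_right h2 hl'.le
      have h5 := abs_le.1 h3
      constructor <;> linarith [h5.1, h5.2])
    (by
      intro x _ y _ hne
      have h2 : ((x : ℤ) - (y : ℤ)) ≠ 0 := by omega
      have h3 := Int.one_le_abs h2
      exact_mod_cast h3)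
    (by
      have : 0 ≤ a / |lam| := by positivity
      linarith)
  refine h1.trans (le_of_eq ?_)
  ring

lemma nd_add_le (x e : ℝ) : nd (x + e) ≤ nd x + |e| := by
  refine (nd_le (x + e) (round x)).trans ?_
  unfold nd
  have : x + e - round x = (x - round x) + e := by ring
  rw [this]
  exact abs_add_le _ _

lemma nd_abs_mul (m : ℤ) (x : ℝ) : nd ((m.natAbs : ℝ) * x) = nd ((m : ℝ) * x) := by
  rcases Int.natAbs_eq m with h | h
  · congr 1
    have : (m : ℝ) = ((m.natAbs : ℤ) : ℝ) := congrArg _ h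
    rw [this, Int.cast_natCast]
  · rw [← nd_neg]
    congr 1
    have : (m : ℝ) = ((-(m.natAbs : ℤ) : ℤ) : ℝ) := congrArg _ h
    rw [this, Int.cast_neg, Int.cast_natCast]
    ring

open Classical in
/-- the `l` away from the pole -/
theorem caseN {n : ℕ} (ω : Fin (n + 2) → ℝ) (hω : LI ω) (τ c : ℝ) (hτ : 0 < τ) (hc : 0 < c)
    (hS : ∀ j : Fin (n + 2), ∀ k : ℕ, 1 ≤ k → c ≤ (k : ℝ) ^ (1 + τ) * ∏ i, nd (k * quo ω j i))
    (W : ℝ) (hW : ∀ i j, |ω i / ω j| ≤ W) (β : ℝ) (hβ : β ≠ 0) (M : ℕ)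
    (a : Fin (n + 2) → ℝ) (ha : ∀ i, 0 < a i) (j : Fin (n + 2)) (hj : ∀ i, a j ≤ a i) :
    (((Icc 1 M).filter (fun l : ℕ => (∀ i, nd (l * (ω i / β)) ≤ a i) ∧
      round ((l : ℝ) * (ω j / β)) ≠ 0)).card : ℝ) ≤
      2 * (2 ^ (n + 2) / c * (2 * M * |ω j / β|) ^ (1 + τ) *
        ∏ i : Fin (n + 1), ((1 + W) * a (j.succAbove i))) * (2 * a j / |ω j / β| + 1) := by
  have hW0 : 0 ≤ W := (abs_nonneg _).trans (hW 0 0)
  have hωj := hω.ne_zero j
  set lj : ℝ := ω j / β with hlj
  have hlj0 : lj ≠ 0 := div_ne_zero hωj hβ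
  have hljp : 0 < |lj| := abs_pos.2 hlj0
  set N := (Icc 1 M).filter (fun l : ℕ => (∀ i, nd (l * (ω i / β)) ≤ a i) ∧
      round ((l : ℝ) * lj) ≠ 0) with hN
  set N0 : ℕ := ⌊2 * (M : ℝ) * |lj|⌋₊ with hN0
  set S' := (Icc 1 N0).filter (fun ν : ℕ => ∀ i : Fin (n + 1), nd (ν * quo ω j i) ≤
    (1 + W) * a (j.succAbove i)) with hS'
  have hprodpos : 0 < ∏ i : Fin (n + 1), ((1 + W) * a (j.succAbove i)) :=
    Finset.prod_pos fun i _ => mul_pos (by linarith) (ha _)
  have hmem : ∀ l ∈ N, round ((l : ℝ) * lj) ≠ 0 ∧ |(l : ℝ) * lj - round ((l : ℝ) * lj)| ≤ a j ∧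
      (round ((l : ℝ) * lj)).natAbs ∈ S' := by
    intro l hl
    rw [hN, Finset.mem_filter, Finset.mem_Icc] at hl
    obtain ⟨⟨h1, h2⟩, h3, h4⟩ := hl
    have h5 : |(l : ℝ) * lj - round ((l : ℝ) * lj)| ≤ a j := h3 j
    have h6 : |(l : ℝ) * lj - round ((l : ℝ) * lj)| ≤ 1 / 2 := nd_le_half _
    refine ⟨h4, h5, ?_⟩
    set m : ℤ := round ((l : ℝ) * lj) with hm
    have hm1 : (1 : ℝ) ≤ |(m : ℝ)| := by exact_mod_cast Int.one_le_abs h4
    rw [hS', Finset.mem_filter, Finset.mem_Icc]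
    refine ⟨⟨Int.natAbs_pos.2 h4, ?_⟩, ?_⟩
    · apply Nat.le_floor
      have h7 : ((m.natAbs : ℕ) : ℝ) = |(m : ℝ)| := by
        rw [Nat.cast_natAbs]
        push_cast
        rfl
      rw [h7]
      have h8 : |(m : ℝ)| ≤ |(l : ℝ) * lj| + 1 / 2 := by
        have := abs_sub_abs_le_abs_sub (m : ℝ) ((l : ℝ) * lj)
        rw [abs_sub_comm] at this
        linarith
      have h9 : |(l : ℝ) * lj| ≤ M * |lj| := by
        rw [abs_mul, abs_of_nonneg (Nat.cast_nonneg l : (0 : ℝ) ≤ (l : ℝ))]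
        exact mul_le_mul_of_nonneg_right (by exact_mod_cast h2) hljp.le
      nlinarith
    · intro i
      rw [nd_abs_mul]
      have h7 : (m : ℝ) * quo ω j i = (l : ℝ) * (ω (j.succAbove i) / β) +
          -(((l : ℝ) * lj - m) * (ω (j.succAbove i) / ω j)) := by
        unfold quo
        rw [hlj]
        field_simp
        ring
      rw [h7]
      refine (nd_add_le _ _).trans ?_
      rw [abs_neg, abs_mul]
      have h8 := h3 (j.succAbove i)
      have h9 : |(l : ℝ) * lj - m| * |ω (j.succAbove i) / ω j| ≤ a (j.succAbove i) * W :=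
        mul_le_mul (h5.trans (hj _)) (hW _ _) (abs_nonneg _) (ha _).le
      linarith
  -- the number of values
  have hcardS' : (S'.card : ℝ) ≤ 2 ^ (n + 2) / c * (2 * M * |lj|) ^ (1 + τ) *
      ∏ i : Fin (n + 1), ((1 + W) * a (j.succAbove i)) := by
    rcases Nat.eq_zero_or_pos N0 with h | h
    · have : S' = ∅ := by
        rw [hS', h]
        rfl
      rw [this, Finset.card_empty, Nat.cast_zero]
      positivity
    · have h1 := count (quo ω j) τ c hτ hc (hS j) N0 h (fun i => (1 + W) * a (j.succAbove i))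
        (fun i => mul_pos (by linarith) (ha _))
      refine h1.trans ?_
      apply mul_le_mul_of_nonneg_right _ hprodpos.le
      apply mul_le_mul_of_nonneg_left _ (by positivity)
      apply Real.rpow_le_rpow (Nat.cast_nonneg _) _ (by linarith)
      exact Nat.floor_le (by positivity)
  set f : ℕ → ℤ := fun l => round ((l : ℝ) * lj) with hf
  have himg : ((N.image f).card : ℝ) ≤ 2 * S'.card := by
    have h1 : N.image f ⊆ S'.image (fun ν : ℕ => (ν : ℤ)) ∪ S'.image (fun ν : ℕ => -(ν : ℤ)) := by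
      intro m hm
      rw [Finset.mem_image] at hm
      obtain ⟨l, hl, rfl⟩ := hm
      have h2 := (hmem l hl).2.2
      rw [Finset.mem_union, Finset.mem_image, Finset.mem_image]
      rcases Int.natAbs_eq (f l) with h | h
      · left; exact ⟨(f l).natAbs, h2, h.symm⟩
      · right; exact ⟨(f l).natAbs, h2, h.symm⟩
    have h2 := (Finset.card_le_card h1).trans (Finset.card_union_le _ _)
    have h3 := Finset.card_image_le (s := S') (f := fun ν : ℕ => (ν : ℤ))
    have h4 := Finset.card_image_le (s := S') (f := fun ν : ℕ => -(ν : ℤ))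
    have h5 : (N.image f).card ≤ 2 * S'.card := by omega
    exact_mod_cast h5
  have hfib : ∀ m ∈ N.image f, ((N.filter (fun l => f l = m)).card : ℝ) ≤ 2 * a j / |lj| + 1 := by
    intro m _
    apply fiber lj (a j) hlj0 (ha j).le m
    intro l hl
    rw [Finset.mem_filter] at hl
    have h1 := (hmem l hl.1).2.1
    have h2 : round ((l : ℝ) * lj) = m := hl.2
    rw [h2] at h1
    exact h1
  have hV0 : 0 ≤ 2 * a j / |lj| + 1 := by
    have := ha j
    positivity
  calc (N.card : ℝ) = ∑ m ∈ N.image f, ((N.filter (fun l => f l = m)).card : ℝ) := by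
        rw [Finset.card_eq_sum_card_image f N]
        push_cast
        rfl
    _ ≤ ∑ m ∈ N.image f, (2 * a j / |lj| + 1) := Finset.sum_le_sum hfib
    _ = (N.image f).card * (2 * a j / |lj| + 1) := by rw [Finset.sum_const, nsmul_eq_mul]
    _ ≤ (2 * S'.card) * (2 * a j / |lj| + 1) := mul_le_mul_of_nonneg_right himg hV0
    _ ≤ _ := by
        apply mul_le_mul_of_nonneg_right _ hV0
        linarith

end Pool.Agent.NH20.NG
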