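import Mathlib
import Pool.Agent.NH20.NG.Cs

/-!
# The sums of `τ (l) ∏ min (2 H + 1, 1 / ‖l ω_i / β‖)`, uniformly in the real number `β`
-/

set_option autoImplicit false

open Finset Filter Topology

namespace Pool.Agent.NH20.NG

open Pool.Agent.NH20.NF

lemma abs_le_nd {x : ℝ} (hx : |x| ≤ 1 / 2) : |x| ≤ nd x := by
  unfold nd
  by_cases h : round x = 0
  · rw [h, Int.cast_zero, sub_zero]
  · have h1 : (1 : ℝ) ≤ |((round x : ℤ) : ℝ)| := by exact_mod_cast Int.one_le_abs h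
    have h2 := abs_sub_abs_le_abs_sub ((round x : ℤ) : ℝ) x
    rw [abs_sub_comm] at h2
    linarith

/-- the data -/
structure Dat {n : ℕ} (ω : Fin (n + 2) → ℝ) (w0 W1 C0 γ : ℝ) : Prop where
  li : LI ω
  hw0 : 0 < w0
  hlow : ∀ i, w0 ≤ |ω i|
  hup : ∀ i, |ω i| ≤ W1
  hC0 : 1 ≤ C0
  hγ0 : 0 ≤ γ
  hγ1 : γ ≤ 1

lemma exists_dat {n : ℕ} (ω : Fin (n + 2) → ℝ) (hω : LI ω) (C0 γ : ℝ) (hC0 : 1 ≤ C0) (h0 : 0 ≤ γ)
    (h1 : γ ≤ 1) : ∃ w0 W1 : ℝ, Dat ω w0 W1 C0 γ := by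
  classical
  obtain ⟨i0, -, hi0⟩ := Finset.exists_min_image (Finset.univ : Finset (Fin (n + 2)))
    (fun i => |ω i|) Finset.univ_nonempty
  obtain ⟨i1, -, hi1⟩ := Finset.exists_max_image (Finset.univ : Finset (Fin (n + 2)))
    (fun i => |ω i|) Finset.univ_nonempty
  exact ⟨|ω i0|, |ω i1|, hω, abs_pos.2 (hω.ne_zero i0), fun i => hi0 i (Finset.mem_univ i),
    fun i => hi1 i (Finset.mem_univ i), hC0, h0, h1⟩

lemma Dat.W1_pos {n : ℕ} {ω : Fin (n + 2) → ℝ} {w0 W1 C0 γ : ℝ} (h : Dat ω w0 W1 C0 γ) : 0 < W1 :=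
  lt_of_lt_of_le h.hw0 ((h.hlow 0).trans (h.hup 0))

/-- the pole -/
lemma pole {n : ℕ} {ω : Fin (n + 2) → ℝ} {w0 W1 C0 γ : ℝ} (h : Dat ω w0 W1 C0 γ) :
    ∃ C : ℝ, 0 < C ∧ ∀ H : ℕ, 1 ≤ H → ∀ β : ℝ, β ≠ 0 → |β| ≤ C0 * H → ∀ M : ℕ,
      ∑ l ∈ (Icc 1 M).filter (fun l : ℕ => (l : ℝ) ≤ |β| / (2 * W1)), (l.divisors.card : ℝ) *
        ∏ i, gn (2 * H + 1) (l * (ω i / β)) ≤ C * (H : ℝ) ^ (n + 2) := by
  obtain ⟨Cd, hCd, hd⟩ := Pool.Agent.H510R2.divisor_bound (1 / 2) (by norm_num)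
  have hs2 : Summable (fun n : ℕ => 1 / (n : ℝ) ^ (3 / 2 : ℝ)) :=
    Real.summable_one_div_nat_rpow.2 (by norm_num)
  set S3 : ℝ := Cd * ∑' n : ℕ, 1 / (n : ℝ) ^ (3 / 2 : ℝ) with hS3
  have hS30 : 0 ≤ S3 := mul_nonneg hCd.le (tsum_nonneg fun k => by positivity)
  have hw0 := h.hw0
  have hC0 := h.hC0
  have hW1 := h.W1_pos
  refine ⟨(C0 / w0) ^ (n + 2) * S3 + 1, by positivity, fun H hH β hβ hβH M => ?_⟩
  have hH0 : (0 : ℝ) < H := by exact_mod_cast (by omega : 0 < H)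
  have hβ' : 0 < |β| := abs_pos.2 hβ
  have h1 : ∀ l ∈ (Icc 1 M).filter (fun l : ℕ => (l : ℝ) ≤ |β| / (2 * W1)),
      (l.divisors.card : ℝ) * ∏ i, gn (2 * H + 1) (l * (ω i / β)) ≤
      ((C0 / w0) ^ (n + 2) * (H : ℝ) ^ (n + 2)) * (Cd * (1 / (l : ℝ) ^ (3 / 2 : ℝ))) := by
    intro l hl
    rw [Finset.mem_filter, Finset.mem_Icc] at hl
    obtain ⟨⟨hl1, hl2⟩, hl3⟩ := hl
    have hl0 : (0 : ℝ) < l := by exact_mod_cast (by omega : 0 < l)
    have hl1R : (1 : ℝ) ≤ l := by exact_mod_cast hl1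
    have h2 : ∀ i, gn (2 * H + 1) (l * (ω i / β)) ≤ C0 * H / (l * w0) := by
      intro i
      have h3 : |(l : ℝ) * (ω i / β)| = l * |ω i| / |β| := by
        rw [abs_mul, abs_div, abs_of_pos hl0]
        ring
      have h4 : |(l : ℝ) * (ω i / β)| ≤ 1 / 2 := by
        rw [h3, div_le_iff₀ hβ']
        rw [le_div_iff₀ (by positivity)] at hl3
        have := h.hup i
        nlinarith
      have h5 := abs_le_nd h4
      have h6 : 0 < |(l : ℝ) * (ω i / β)| := by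
        rw [h3]
        have := h.hlow i
        have : 0 < |ω i| := by linarith
        positivity
      refine (gn_le_inv (lt_of_lt_of_le h6 h5)).trans ?_
      calc (nd ((l : ℝ) * (ω i / β)))⁻¹ ≤ (|(l : ℝ) * (ω i / β)|)⁻¹ := inv_anti₀ h6 h5
        _ = |β| / (l * |ω i|) := by rw [h3, inv_div]
        _ ≤ C0 * H / (l * w0) := by
            apply div_le_div₀ (by positivity) hβH (by positivity)
            exact mul_le_mul_of_nonneg_left (h.hlow i) hl0.le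
    have h3 : ∏ i, gn (2 * H + 1) (l * (ω i / β)) ≤ (C0 * H / (l * w0)) ^ (n + 2) := by
      calc ∏ i, gn (2 * H + 1) (l * (ω i / β)) ≤ ∏ _i : Fin (n + 2), (C0 * H / (l * w0)) :=
            Finset.prod_le_prod (fun i _ => (gn_pos (by positivity) _).le) (fun i _ => h2 i)
        _ = _ := by rw [Finset.prod_const, Finset.card_univ, Fintype.card_fin]
    have h4 : (C0 * H / (l * w0)) ^ (n + 2) ≤ (C0 / w0) ^ (n + 2) * (H : ℝ) ^ (n + 2) / (l : ℝ) ^ 2 := by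
      have h5 : (C0 * H / (l * w0)) ^ (n + 2) =
          (C0 / w0) ^ (n + 2) * (H : ℝ) ^ (n + 2) / (l : ℝ) ^ (n + 2) := by
        rw [← mul_pow, ← div_pow]
        congr 1
        field_simp
      rw [h5]
      apply div_le_div_of_nonneg_left (by positivity) (by positivity)
      exact pow_le_pow_right₀ hl1R (by omega)
    have h5 : (l : ℝ) ^ 2 = (l : ℝ) ^ (1 / 2 : ℝ) * (l : ℝ) ^ (3 / 2 : ℝ) := by
      rw [← Real.rpow_add hl0, ← Real.rpow_natCast]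
      norm_num
    calc (l.divisors.card : ℝ) * ∏ i, gn (2 * H + 1) (l * (ω i / β)) ≤
        (Cd * (l : ℝ) ^ (1 / 2 : ℝ)) * ((C0 / w0) ^ (n + 2) * (H : ℝ) ^ (n + 2) / (l : ℝ) ^ 2) := by
          apply mul_le_mul (hd l hl1) (h3.trans h4)
            (Finset.prod_nonneg fun i _ => (gn_pos (by positivity) _).le) (by positivity)
      _ = _ := by
          rw [h5]
          have : (0 : ℝ) < (l : ℝ) ^ (1 / 2 : ℝ) := by positivity
          field_simp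
  refine (Finset.sum_le_sum h1).trans ?_
  rw [← Finset.mul_sum, ← Finset.mul_sum]
  have h2 : ∑ l ∈ (Icc 1 M).filter (fun l : ℕ => (l : ℝ) ≤ |β| / (2 * W1)),
      1 / (l : ℝ) ^ (3 / 2 : ℝ) ≤ ∑' n : ℕ, 1 / (n : ℝ) ^ (3 / 2 : ℝ) :=
    hs2.sum_le_tsum _ (fun i _ => by positivity)
  have h3 : Cd * ∑ l ∈ (Icc 1 M).filter (fun l : ℕ => (l : ℝ) ≤ |β| / (2 * W1)),
      1 / (l : ℝ) ^ (3 / 2 : ℝ) ≤ S3 := mul_le_mul_of_nonneg_left h2 hCd.le
  have h4 : (0 : ℝ) ≤ (H : ℝ) ^ (n + 2) := by positivity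
  calc ((C0 / w0) ^ (n + 2) * (H : ℝ) ^ (n + 2)) * (Cd * ∑ l ∈ (Icc 1 M).filter
        (fun l : ℕ => (l : ℝ) ≤ |β| / (2 * W1)), 1 / (l : ℝ) ^ (3 / 2 : ℝ)) ≤
        ((C0 / w0) ^ (n + 2) * (H : ℝ) ^ (n + 2)) * S3 :=
        mul_le_mul_of_nonneg_left h3 (by positivity)
    _ ≤ _ := by nlinarith

/-- one level -/
lemma level {n : ℕ} {ω : Fin (n + 2) → ℝ} {w0 W1 C0 γ : ℝ} (h : Dat ω w0 W1 C0 γ) (τ c : ℝ)
    (hτ : 0 < τ) (hc : 0 < c)
    (hS : ∀ j : Fin (n + 2), ∀ k : ℕ, 1 ≤ k → c ≤ (k : ℝ) ^ (1 + τ) * ∏ i, nd (k * quo ω j i)) :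
    ∃ C : ℝ, 0 < C ∧ ∀ H : ℕ, 1 ≤ H → ∀ β : ℝ, (H : ℝ) ^ γ ≤ |β| → |β| ≤ C0 * H → ∀ M : ℕ,
      ∀ a : Fin (n + 2) → ℝ, (∀ i, 0 < a i) → (∀ i, (a i)⁻¹ ≤ 6 * H) →
      (((Icc 1 M).filter (fun l : ℕ => |β| / (2 * W1) < l ∧
        ∀ i, nd (l * (ω i / β)) ≤ a i)).card : ℝ) ≤
        C * ((M : ℝ) ^ (1 + τ) * (H : ℝ) ^ (1 - γ) + H) * ∏ i, a i := by
  classical
  have hw0 := h.hw0
  have hC0 := h.hC0
  have hW1 := h.W1_pos
  set W : ℝ := W1 / w0 with hW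
  have hW0 : 0 < W := by positivity
  have hWr : ∀ i j, |ω i / ω j| ≤ W := by
    intro i j
    rw [abs_div]
    exact div_le_div₀ hW1.le (h.hup i) hw0 (h.hlow j)
  set C1 : ℝ := 2 * (2 ^ (n + 2) / c) * 2 ^ (1 + τ) * (W1 + 1) ^ τ * (2 + 6 * W1) * (1 + W) ^ (n + 1)
    with hC1
  set C2 : ℝ := C0 / (2 * w0) / (w0 / (2 * W1)) ^ (n + 2) with hC2
  have hC1p : 0 < C1 := by positivity
  have hC2p : 0 < C2 := by positivity
  refine ⟨C1 + C2, by positivity, fun H hH β hβγ hβH M a ha ha6 => ?_⟩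
  have hH0 : (0 : ℝ) < H := by exact_mod_cast (by omega : 0 < H)
  have hH1 : (1 : ℝ) ≤ H := by exact_mod_cast hH
  have hHγ : (1 : ℝ) ≤ (H : ℝ) ^ γ := Real.one_le_rpow hH1 h.hγ0
  have hβ' : 0 < |β| := by linarith
  have hβ : β ≠ 0 := abs_pos.1 hβ'
  have hH1γ : (1 : ℝ) ≤ (H : ℝ) ^ (1 - γ) := Real.one_le_rpow hH1 (by linarith [h.hγ1])
  obtain ⟨j, -, hj⟩ := Finset.exists_min_image (Finset.univ : Finset (Fin (n + 2))) a
    Finset.univ_nonempty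
  have hj' : ∀ i, a j ≤ a i := fun i => hj i (Finset.mem_univ i)
  have hap : 0 < ∏ i, a i := Finset.prod_pos fun i _ => ha i
  have haj := ha j
  set T := (Icc 1 M).filter (fun l : ℕ => |β| / (2 * W1) < l ∧ ∀ i, nd (l * (ω i / β)) ≤ a i) with hT
  set N := (Icc 1 M).filter (fun l : ℕ => (∀ i, nd (l * (ω i / β)) ≤ a i) ∧
      round ((l : ℝ) * (ω j / β)) ≠ 0) with hN
  set P := T.filter (fun l : ℕ => round ((l : ℝ) * (ω j / β)) = 0) with hP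
  have hsub : T ⊆ N ∪ P := by
    intro l hl
    rw [Finset.mem_union]
    by_cases h0 : round ((l : ℝ) * (ω j / β)) = 0
    · right; exact Finset.mem_filter.2 ⟨hl, h0⟩
    · left
      have hl' := Finset.mem_filter.1 hl
      exact Finset.mem_filter.2 ⟨hl'.1, hl'.2.2, h0⟩
  have hcard : (T.card : ℝ) ≤ N.card + P.card := by
    exact_mod_cast (Finset.card_le_card hsub).trans (Finset.card_union_le _ _)
  set lam : ℝ := |ω j / β| with hlam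
  have hlamp : 0 < lam := abs_pos.2 (div_ne_zero (h.li.ne_zero j) hβ)
  have hlam1 : lam * (H : ℝ) ^ γ ≤ W1 := by
    rw [hlam, abs_div, div_mul_eq_mul_div, div_le_iff₀ hβ']
    have := h.hup j
    have h2 : 0 ≤ |ω j| := abs_nonneg _
    nlinarith
  have hlam2 : lam ≤ W1 + 1 := by nlinarith
  have hlam3 : H * lam ≤ W1 * (H : ℝ) ^ (1 - γ) := by
    have e1 : (H : ℝ) = (H : ℝ) ^ γ * (H : ℝ) ^ (1 - γ) := by
      rw [← Real.rpow_add hH0]
      simp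
    calc (H : ℝ) * lam = (lam * (H : ℝ) ^ γ) * (H : ℝ) ^ (1 - γ) := by
          conv_lhs => rw [e1]
          ring
      _ ≤ W1 * (H : ℝ) ^ (1 - γ) := mul_le_mul_of_nonneg_right hlam1 (by positivity)
  have hNc : (N.card : ℝ) ≤ C1 * ((M : ℝ) ^ (1 + τ) * (H : ℝ) ^ (1 - γ)) * ∏ i, a i := by
    refine (caseN ω h.li τ c hτ hc hS W hWr β hβ M a ha j hj').trans ?_
    rw [Finset.prod_mul_distrib, Finset.prod_const, Finset.card_univ, Fintype.card_fin]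
    set A' : ℝ := ∏ i : Fin (n + 1), a (j.succAbove i) with hA'
    have hA'0 : 0 < A' := Finset.prod_pos fun i _ => ha _
    have hprod : ∏ i, a i = a j * A' := Fin.prod_univ_succAbove a j
    have h3 : 2 * a j / lam + 1 ≤ a j * ((2 + 6 * (H * lam)) / lam) := by
      have h4 : 1 ≤ a j * (6 * H) := by
        have h5 := ha6 j
        rw [inv_le_iff_one_le_mul₀ haj] at h5
        linarith
      have h5 : a j * ((2 + 6 * (H * lam)) / lam) = 2 * a j / lam + a j * (6 * H) := by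
        field_simp
      rw [h5]
      linarith
    have h4 : 2 + 6 * (H * lam) ≤ (2 + 6 * W1) * (H : ℝ) ^ (1 - γ) := by nlinarith
    have h5 : (2 * (M : ℝ) * lam) ^ (1 + τ) = 2 ^ (1 + τ) * (M : ℝ) ^ (1 + τ) * (lam * lam ^ τ) := by
      rw [Real.mul_rpow (by positivity) hlamp.le, Real.mul_rpow (by norm_num) (Nat.cast_nonneg _),
        Real.rpow_add hlamp, Real.rpow_one]
    have h6 : lam ^ τ ≤ (W1 + 1) ^ τ := Real.rpow_le_rpow hlamp.le hlam2 hτ.le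
    have hlt : 0 < lam ^ τ := by positivity
    rw [h5, hprod]
    calc 2 * (2 ^ (n + 2) / c * (2 ^ (1 + τ) * (M : ℝ) ^ (1 + τ) * (lam * lam ^ τ)) *
          ((1 + W) ^ (n + 1) * A')) * (2 * a j / lam + 1) ≤
        2 * (2 ^ (n + 2) / c * (2 ^ (1 + τ) * (M : ℝ) ^ (1 + τ) * (lam * lam ^ τ)) *
          ((1 + W) ^ (n + 1) * A')) * (a j * ((2 + 6 * (H * lam)) / lam)) :=
          mul_le_mul_of_nonneg_left h3 (by positivity)
      _ = (2 * (2 ^ (n + 2) / c) * 2 ^ (1 + τ) * (1 + W) ^ (n + 1) * (M : ℝ) ^ (1 + τ) * (a j * A')) *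
          (lam ^ τ * (2 + 6 * (H * lam))) := by
            field_simp
      _ ≤ (2 * (2 ^ (n + 2) / c) * 2 ^ (1 + τ) * (1 + W) ^ (n + 1) * (M : ℝ) ^ (1 + τ) * (a j * A')) *
          ((W1 + 1) ^ τ * ((2 + 6 * W1) * (H : ℝ) ^ (1 - γ))) := by
            apply mul_le_mul_of_nonneg_left _ (by positivity)
            exact mul_le_mul h6 h4 (by positivity) (by positivity)
      _ = C1 * ((M : ℝ) ^ (1 + τ) * (H : ℝ) ^ (1 - γ)) * (a j * A') := by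
            rw [hC1]
            ring
  have hPc : (P.card : ℝ) ≤ C2 * H * ∏ i, a i := by
    rcases P.eq_empty_or_nonempty with he | ⟨l0, hl0⟩
    · rw [he, Finset.card_empty, Nat.cast_zero]
      positivity
    have hPm : ∀ l ∈ P, 1 ≤ l ∧ |β| / (2 * W1) < l ∧ |(l : ℝ) * (ω j / β)| ≤ a j ∧
        |(l : ℝ) * (ω j / β)| ≤ 1 / 2 := by
      intro l hl
      have hl' := Finset.mem_filter.1 hl
      have hl'' := Finset.mem_filter.1 hl'.1
      have h2 := hl''.2.2 j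
      have h3 := nd_le_half ((l : ℝ) * (ω j / β))
      unfold nd at h2 h3
      rw [hl'.2, Int.cast_zero, sub_zero] at h2 h3
      exact ⟨(Finset.mem_Icc.1 hl''.1).1, hl''.2.1, h2, h3⟩
    have habs : ∀ l : ℕ, |(l : ℝ) * (ω j / β)| = l * |ω j| / |β| := by
      intro l
      rw [abs_mul, abs_div, abs_of_nonneg (Nat.cast_nonneg l : (0 : ℝ) ≤ (l : ℝ))]
      ring
    have haj0 : w0 / (2 * W1) ≤ a j := by
      obtain ⟨h2, h3, h4, h5⟩ := hPm l0 hl0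
      refine le_trans ?_ h4
      rw [habs, le_div_iff₀ hβ']
      have h6 := h.hlow j
      rw [div_lt_iff₀ (by positivity)] at h3
      rw [div_mul_eq_mul_div, div_le_iff₀ (by positivity)]
      nlinarith
    have hprodlow : (w0 / (2 * W1)) ^ (n + 2) ≤ ∏ i, a i := by
      calc (w0 / (2 * W1)) ^ (n + 2) = ∏ _i : Fin (n + 2), (w0 / (2 * W1)) := by
            rw [Finset.prod_const, Finset.card_univ, Fintype.card_fin]
        _ ≤ _ := Finset.prod_le_prod (fun i _ => by positivity) (fun i _ => haj0.trans (hj' i))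
    have hPle : (P.card : ℝ) ≤ C0 / (2 * w0) * H := by
      have h2 : P ⊆ Icc 1 ⌊C0 / (2 * w0) * H⌋₊ := by
        intro l hl
        obtain ⟨h3, h4, h5, h6⟩ := hPm l hl
        rw [Finset.mem_Icc]
        refine ⟨h3, Nat.le_floor ?_⟩
        rw [habs, div_le_iff₀ hβ'] at h6
        have h7 := h.hlow j
        have hl0' : (0 : ℝ) ≤ l := Nat.cast_nonneg l
        rw [div_mul_eq_mul_div, le_div_iff₀ (by positivity)]
        nlinarith
      have h3 := Finset.card_le_card h2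
      rw [Nat.card_Icc, Nat.add_sub_cancel] at h3
      calc (P.card : ℝ) ≤ (⌊C0 / (2 * w0) * H⌋₊ : ℝ) := by exact_mod_cast h3
        _ ≤ _ := Nat.floor_le (by positivity)
    have h4 : C0 / (2 * w0) * H = C2 * H * (w0 / (2 * W1)) ^ (n + 2) := by
      rw [hC2]
      field_simp
    rw [h4] at hPle
    exact hPle.trans (mul_le_mul_of_nonneg_left hprodlow (by positivity))
  have hM0 : (0 : ℝ) ≤ (M : ℝ) ^ (1 + τ) * (H : ℝ) ^ (1 - γ) := by positivity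
  calc (T.card : ℝ) ≤ N.card + P.card := hcard
    _ ≤ C1 * ((M : ℝ) ^ (1 + τ) * (H : ℝ) ^ (1 - γ)) * ∏ i, a i + C2 * H * ∏ i, a i :=
        add_le_add hNc hPc
    _ ≤ (C1 + C2) * ((M : ℝ) ^ (1 + τ) * (H : ℝ) ^ (1 - γ) + H) * ∏ i, a i := by
        rw [← add_mul]
        apply mul_le_mul_of_nonneg_right _ hap.le
        nlinarith [mul_nonneg hC1p.le hH0.le, mul_nonneg hC2p.le hM0]

/-- **The sums** -/
theorem sums {n : ℕ} {ω : Fin (n + 2) → ℝ} {w0 W1 C0 γ : ℝ} (h : Dat ω w0 W1 C0 γ) (τ c D : ℝ)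
    (hτ : 0 < τ) (hc : 0 < c)
    (hS : ∀ j : Fin (n + 2), ∀ k : ℕ, 1 ≤ k → c ≤ (k : ℝ) ^ (1 + τ) * ∏ i, nd (k * quo ω j i))
    (hD0 : 0 < D) (hD : ∀ l : ℕ, 1 ≤ l → (l.divisors.card : ℝ) ≤ D * (l : ℝ) ^ τ) :
    ∃ C : ℝ, 0 < C ∧ ∀ H : ℕ, 1 ≤ H → ∀ β : ℝ, (H : ℝ) ^ γ ≤ |β| → |β| ≤ C0 * H → ∀ M : ℕ,
      ∑ l ∈ Icc 1 M, (l.divisors.card : ℝ) * ∏ i, gn (2 * H + 1) (l * (ω i / β)) ≤
        C * ((H : ℝ) ^ (n + 2) + (M : ℝ) ^ τ * (((Nat.log 2 (2 * H + 1) : ℝ) + 2) ^ (n + 2) *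
          ((M : ℝ) ^ (1 + τ) * (H : ℝ) ^ (1 - γ) + H))) := by
  classical
  obtain ⟨Cp, hCp, hp⟩ := pole h
  obtain ⟨Cl, hCl, hl⟩ := level h τ c hτ hc hS
  refine ⟨Cp + D * (2 ^ (n + 2) * Cl), by positivity, fun H hH β hβγ hβH M => ?_⟩
  have hH0 : (0 : ℝ) < H := by exact_mod_cast (by omega : 0 < H)
  have hH1 : (1 : ℝ) ≤ H := by exact_mod_cast hH
  have hHγ : (1 : ℝ) ≤ (H : ℝ) ^ γ := Real.one_le_rpow hH1 h.hγ0
  have hβ' : 0 < |β| := by linarith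
  have hβ : β ≠ 0 := abs_pos.1 hβ'
  set J : ℕ := Nat.log 2 (2 * H + 1) + 1 with hJ
  have hBJ : (2 * (H : ℝ) + 1) ≤ 2 ^ J := by
    have := Nat.lt_pow_succ_log_self (b := 2) (by norm_num) (2 * H + 1)
    exact_mod_cast this.le
  have h2J : (2 : ℝ) ^ J ≤ 6 * H := by
    have h1 : 2 ^ Nat.log 2 (2 * H + 1) ≤ 2 * H + 1 := Nat.pow_log_le_self 2 (by omega)
    have h2 : 2 ^ J ≤ 2 * (2 * H + 1) := by
      rw [hJ, pow_succ]
      omega
    have h3 : (2 : ℝ) ^ J ≤ 2 * (2 * H + 1) := by exact_mod_cast h2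
    linarith
  have hB0 : (0 : ℝ) < 2 * H + 1 := by positivity
  set g : ℕ → ℝ := fun l => ∏ i, gn (2 * H + 1) (l * (ω i / β)) with hg
  have hg0 : ∀ l, 0 ≤ g l := fun l => Finset.prod_nonneg fun i _ => (gn_pos hB0 _).le
  -- the two parts
  have hsplit := Finset.sum_filter_add_sum_filter_not (Icc 1 M)
    (fun l : ℕ => (l : ℝ) ≤ |β| / (2 * W1)) (fun l => (l.divisors.card : ℝ) * g l)
  have hpart1 := hp H hH β hβ hβH M
  set T := (Icc 1 M).filter (fun l : ℕ => ¬ (l : ℝ) ≤ |β| / (2 * W1)) with hT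
  have hpart2 : ∑ l ∈ T, (l.divisors.card : ℝ) * g l ≤ D * (M : ℝ) ^ τ *
      (((J : ℝ) + 1) ^ (n + 2) * (2 ^ (n + 2) * (Cl * ((M : ℝ) ^ (1 + τ) * (H : ℝ) ^ (1 - γ) + H)))) := by
    have h1 : ∑ l ∈ T, (l.divisors.card : ℝ) * g l ≤ ∑ l ∈ T, D * (M : ℝ) ^ τ * g l := by
      refine Finset.sum_le_sum fun l hl => ?_
      rw [hT, Finset.mem_filter, Finset.mem_Icc] at hl
      refine mul_le_mul_of_nonneg_right ((hD l hl.1.1).trans ?_) (hg0 l)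
      apply mul_le_mul_of_nonneg_left _ hD0.le
      exact Real.rpow_le_rpow (Nat.cast_nonneg _) (by exact_mod_cast hl.1.2) hτ.le
    refine h1.trans ?_
    rw [← Finset.mul_sum]
    apply mul_le_mul_of_nonneg_left _ (by positivity)
    have h2 : ∀ l ∈ T, g l ≤ ∑ E : Fin (n + 2) → Fin (J + 1),
        if (∀ i, nd (l * (ω i / β)) ≤ ((2 : ℝ) ^ (E i : ℕ))⁻¹) then
          ∏ i, (2 : ℝ) ^ ((E i : ℕ) + 1) else 0 := by
      intro l _
      choose E hE using fun i => exists_level' (2 * H + 1) hB0 J hBJ ((l : ℕ) * (ω i / β))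
      refine le_trans ?_ (Finset.single_le_sum (f := fun E : Fin (n + 2) → Fin (J + 1) =>
        if (∀ i, nd (l * (ω i / β)) ≤ ((2 : ℝ) ^ (E i : ℕ))⁻¹) then
          ∏ i, (2 : ℝ) ^ ((E i : ℕ) + 1) else 0)
        (fun E _ => ?_) (Finset.mem_univ E))
      · rw [if_pos (fun i => (hE i).1)]
        exact Finset.prod_le_prod (fun i _ => (gn_pos hB0 _).le) (fun i _ => (hE i).2)
      · split_ifs
        · positivity
        · exact le_rfl
    refine (Finset.sum_le_sum h2).trans ?_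
    rw [Finset.sum_comm]
    have h3 : ∀ E : Fin (n + 2) → Fin (J + 1), ∑ l ∈ T,
        (if (∀ i, nd ((l : ℕ) * (ω i / β)) ≤ ((2 : ℝ) ^ (E i : ℕ))⁻¹) then
          ∏ i, (2 : ℝ) ^ ((E i : ℕ) + 1) else 0) ≤
        2 ^ (n + 2) * (Cl * ((M : ℝ) ^ (1 + τ) * (H : ℝ) ^ (1 - γ) + H)) := by
      intro E
      rw [← Finset.sum_filter, Finset.sum_const, nsmul_eq_mul]
      have h4 := hl H hH β hβγ hβH M (fun i => ((2 : ℝ) ^ (E i : ℕ))⁻¹) (fun i => by positivity)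
        (by
          intro i
          rw [inv_inv]
          refine le_trans ?_ h2J
          exact pow_le_pow_right₀ (by norm_num) (by have := (E i).2; omega))
      have h5 : (T.filter (fun l : ℕ => ∀ i, nd ((l : ℕ) * (ω i / β)) ≤ ((2 : ℝ) ^ (E i : ℕ))⁻¹)) =
          (Icc 1 M).filter (fun l : ℕ => |β| / (2 * W1) < l ∧
            ∀ i, nd (l * (ω i / β)) ≤ ((2 : ℝ) ^ (E i : ℕ))⁻¹) := by
        rw [hT, Finset.filter_filter]
        apply Finset.filter_congr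
        intro l _
        rw [not_le]
      rw [h5]
      have h6 : (∏ i, ((2 : ℝ) ^ (E i : ℕ))⁻¹) * ∏ i, (2 : ℝ) ^ ((E i : ℕ) + 1) = 2 ^ (n + 2) := by
        rw [← Finset.prod_mul_distrib]
        have : ∀ i, ((2 : ℝ) ^ (E i : ℕ))⁻¹ * (2 : ℝ) ^ ((E i : ℕ) + 1) = 2 := by
          intro i
          rw [pow_succ, ← mul_assoc, inv_mul_cancel₀ (by positivity), one_mul]
        simp_rw [this]
        rw [Finset.prod_const, Finset.card_univ, Fintype.card_fin]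
      calc _ ≤ (Cl * ((M : ℝ) ^ (1 + τ) * (H : ℝ) ^ (1 - γ) + H) * ∏ i, ((2 : ℝ) ^ (E i : ℕ))⁻¹) *
            ∏ i, (2 : ℝ) ^ ((E i : ℕ) + 1) := by
            apply mul_le_mul_of_nonneg_right h4 (by positivity)
        _ = (Cl * ((M : ℝ) ^ (1 + τ) * (H : ℝ) ^ (1 - γ) + H)) * ((∏ i, ((2 : ℝ) ^ (E i : ℕ))⁻¹) *
            ∏ i, (2 : ℝ) ^ ((E i : ℕ) + 1)) := by ring
        _ = _ := by rw [h6]; ring
    refine (Finset.sum_le_sum fun E _ => h3 E).trans (le_of_eq ?_)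
    rw [Finset.sum_const, Finset.card_univ, Fintype.card_fun, Fintype.card_fin, Fintype.card_fin,
      nsmul_eq_mul]
    push_cast
    ring
  have hJ1 : (J : ℝ) + 1 = (Nat.log 2 (2 * H + 1) : ℝ) + 2 := by
    rw [hJ]
    push_cast
    ring
  rw [hJ1] at hpart2
  set Lg : ℝ := ((Nat.log 2 (2 * H + 1) : ℝ) + 2) ^ (n + 2) with hLg
  have hLg0 : 0 ≤ Lg := by positivity
  set Z : ℝ := (M : ℝ) ^ (1 + τ) * (H : ℝ) ^ (1 - γ) + H with hZ
  have hZ0 : 0 ≤ Z := by positivity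
  rw [← hsplit]
  have hMτ : (0 : ℝ) ≤ (M : ℝ) ^ τ := by positivity
  calc ∑ l ∈ (Icc 1 M).filter (fun l : ℕ => (l : ℝ) ≤ |β| / (2 * W1)), (l.divisors.card : ℝ) * g l +
      ∑ l ∈ T, (l.divisors.card : ℝ) * g l ≤ Cp * (H : ℝ) ^ (n + 2) +
        D * (M : ℝ) ^ τ * (Lg * (2 ^ (n + 2) * (Cl * Z))) := add_le_add hpart1 hpart2
    _ = Cp * (H : ℝ) ^ (n + 2) + (D * (2 ^ (n + 2) * Cl)) * ((M : ℝ) ^ τ * (Lg * Z)) := by ring
    _ ≤ (Cp + D * (2 ^ (n + 2) * Cl)) * ((H : ℝ) ^ (n + 2) + (M : ℝ) ^ τ * (Lg * Z)) := by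
        have q1 : 0 ≤ D * (2 ^ (n + 2) * Cl) := by positivity
        have q2 : 0 ≤ (M : ℝ) ^ τ * (Lg * Z) := by positivity
        have q3 : 0 ≤ (H : ℝ) ^ (n + 2) := by positivity
        nlinarith [mul_nonneg q1 q3, mul_nonneg hCp.le q2]

end Pool.Agent.NH20.NG
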