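import Mathlib
import Pool.Agent.NH20.NG.Sums
import Pool.Agent.NH20.NF.Uni

/-!
# Bad vectors for the linear form `(θ + x_0 ω_0 + ... ) / β`, uniformly in `β` and `θ`
-/

set_option autoImplicit false

open Finset Filter Topology

namespace Pool.Agent.NH20.NG

open Pool.Agent.NH20.NF

open Classical in
/-- the bad vectors -/
noncomputable def BD {n : ℕ} (ω : Fin n → ℝ) (ψ : ℕ → ℝ) (c κ : ℝ) (H : ℕ) (β θ : ℝ) :
    Finset (Fin n → ℤ) :=
  (bx n H).filter fun x => ∃ q : ℕ, 1 ≤ q ∧ (q : ℝ) ≤ (H : ℝ) ^ κ ∧ ∃ p : ℤ,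
    |q * ((θ + lf ω x) / β) - p| ≤ c * ψ q

open Classical in
/-- the bad vectors of a dyadic block -/
noncomputable def BK {n : ℕ} (ω : Fin n → ℝ) (s : ℝ) (i : ℕ) (H : ℕ) (β θ : ℝ) :
    Finset (Fin n → ℤ) :=
  (bx n H).filter fun x => ∃ q : ℕ, 1 ≤ q ∧ q ≤ 2 ^ (i + 1) ∧ nd (q * ((θ + lf ω x) / β)) ≤ s

lemma lf_div {n : ℕ} (ω : Fin n → ℝ) (β θ : ℝ) (x : Fin n → ℤ) :
    (θ + lf ω x) / β = θ / β + lf (fun i => ω i / β) x := by
  unfold lf
  rw [add_div, Finset.sum_div]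
  congr 1
  exact Finset.sum_congr rfl fun i _ => by ring

lemma BK_card {n : ℕ} (ω : Fin n → ℝ) (s : ℝ) (i : ℕ) (H : ℕ) (β θ : ℝ) (K : ℕ) (hK : 1 ≤ K)
    (hs : s ≤ 1 / (8 * K)) :
    ((BK ω s i H β θ).card : ℝ) ≤ 4 / K * (((2 ^ (i + 1) : ℕ) : ℝ) * (2 * H + 1) ^ n +
      2 * ∑ l ∈ Icc 1 (K * 2 ^ (i + 1)), (l.divisors.card : ℝ) *
        ∏ i, gn (2 * H + 1) (l * (ω i / β))) := by
  classical
  refine le_trans ?_ (pairs' (fun i => ω i / β) (θ / β) K (2 ^ (i + 1)) H hK)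
  have hsub : BK ω s i H β θ ⊆ ((Icc 1 (2 ^ (i + 1)) ×ˢ bx n H).filter
      (fun a : ℕ × (Fin n → ℤ) => nd (a.1 * (θ / β + lf (fun i => ω i / β) a.2)) ≤ 1 / (8 * K))).image
      Prod.snd := by
    intro x hx
    unfold BK at hx
    rw [Finset.mem_filter] at hx
    obtain ⟨h1, q, h2, h3, h4⟩ := hx
    rw [Finset.mem_image]
    refine ⟨(q, x), Finset.mem_filter.2 ⟨Finset.mem_product.2 ⟨Finset.mem_Icc.2 ⟨h2, h3⟩, h1⟩, ?_⟩,
      rfl⟩
    simp only
    rw [← lf_div]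
    exact h4.trans hs
  exact Nat.cast_le.2 ((Finset.card_le_card hsub).trans Finset.card_image_le)

lemma BD_sub {n : ℕ} (ω : Fin n → ℝ) (ψ : ℕ → ℝ) (hanti : Antitone ψ) (c κ : ℝ) (hc : 0 ≤ c) (H : ℕ)
    (β θ : ℝ) (s : ℕ → ℝ) (hs : ∀ i, c * ψ (2 ^ i) ≤ s i) :
    BD ω ψ c κ H β θ ⊆ (range (Nat.log 2 ⌊(H : ℝ) ^ κ⌋₊ + 1)).biUnion fun i =>
      BK ω (s i) i H β θ := by
  classical
  intro x hx
  unfold BD at hx
  rw [Finset.mem_filter] at hx
  obtain ⟨h1, q, h2, h3, p, h4⟩ := hx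
  have h5 : 2 ^ (Nat.log 2 q) ≤ q := Nat.pow_log_le_self 2 (by omega)
  have h6 : q < 2 ^ (Nat.log 2 q + 1) := Nat.lt_pow_succ_log_self (by norm_num) q
  rw [Finset.mem_biUnion]
  refine ⟨Nat.log 2 q, Finset.mem_range.2 (Nat.lt_succ_of_le
    (Nat.log_mono_right (Nat.le_floor h3))), ?_⟩
  unfold BK
  rw [Finset.mem_filter]
  refine ⟨h1, q, h2, h6.le, ?_⟩
  refine (nd_le _ p).trans (h4.trans (le_trans ?_ (hs _)))
  exact mul_le_mul_of_nonneg_left (hanti h5) hc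

/-- **Bad vectors for large `H`** -/
theorem dil_aux {n : ℕ} (ω : Fin (n + 2) → ℝ) (halg : ∀ i, IsAlgebraic ℚ (ω i)) (hli : LI ω)
    (C0 γ : ℝ) (hC0 : 1 ≤ C0) (hγ0 : 0 ≤ γ) (hγ1 : γ ≤ 1)
    (κ : ℝ) (hκ0 : 0 ≤ κ) (hκ : κ < n + 1 + γ) (ψ : ℕ → ℝ) (hanti : Antitone ψ)
    (h0 : ∀ q, 0 ≤ ψ q) (hsum : Summable ψ) :
    ∃ C δ : ℝ, 0 < C ∧ 0 < δ ∧ ∀ᶠ H : ℕ in atTop, ∀ c : ℝ, 0 < c → c ≤ 1 → ∀ β θ : ℝ,
      (H : ℝ) ^ γ ≤ |β| → |β| ≤ C0 * H →
      ((BD ω ψ c κ H β θ).card : ℝ) ≤ C * (c + (H : ℝ) ^ (-δ)) * (H : ℝ) ^ (n + 2) := by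
  classical
  obtain ⟨w0, W1, hdat⟩ := exists_dat ω hli C0 γ hC0 hγ0 hγ1
  -- the small parameters
  set e0 : ℝ := n + 1 + γ - κ with he0
  have he00 : 0 < e0 := by rw [he0]; linarith
  set e1 : ℝ := min e0 (1 / 2) with he1
  have he10 : 0 < e1 := lt_min he00 (by norm_num)
  have he11 : e1 ≤ e0 := min_le_left _ _
  have he12 : e1 ≤ 1 / 2 := min_le_right _ _
  set τ : ℝ := e1 / (8 * (1 + 3 * κ)) with hτ
  have hτ0 : 0 < τ := by positivity
  have hτκ : τ * (1 + 3 * κ) = e1 / 8 := by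
    rw [hτ]
    field_simp
  -- the constants
  have hex : ∀ j : Fin (n + 2), ∃ c : ℝ, 0 < c ∧ ∀ k : ℕ, 1 ≤ k →
      c ≤ (k : ℝ) ^ (1 + τ) * ∏ i, nd (k * quo ω j i) := fun j =>
    schmidt (quo ω j) (fun i => by
      unfold quo
      rw [div_eq_mul_inv]
      exact (halg _).mul (halg _).inv) (ind_quo hli j) τ hτ0
  choose cj hcj hcj' using hex
  obtain ⟨cs, hcs, hcs'⟩ := exists_min_pos (Finset.univ : Finset (Fin (n + 2))) cj
    (fun j _ => hcj j)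
  have hS : ∀ j : Fin (n + 2), ∀ k : ℕ, 1 ≤ k →
      cs ≤ (k : ℝ) ^ (1 + τ) * ∏ i, nd (k * quo ω j i) := fun j k hk =>
    (hcs' j (Finset.mem_univ j)).trans (hcj' j k hk)
  obtain ⟨D, hD0, hD⟩ := Pool.Agent.H510R2.divisor_bound τ hτ0
  obtain ⟨Cs, hCs, hsums⟩ := sums hdat τ cs D hτ0 hcs hS hD0 hD
  -- the function
  set ψ' : ℕ → ℝ := fun q => ψ q + 1 / ((q : ℝ) + 1) ^ 2 with hψ'
  have hψ'0 : ∀ q, 0 < ψ' q := fun q => by
    have := h0 q
    simp only [hψ']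
    positivity
  have hψ'anti : Antitone ψ' := by
    intro a b hab
    simp only [hψ']
    apply add_le_add (hanti hab)
    apply one_div_le_one_div_of_le (by positivity)
    have : (a : ℝ) ≤ b := by exact_mod_cast hab
    gcongr
  have hψ'sum : Summable ψ' := by
    apply hsum.add
    have h1 : Summable (fun q : ℕ => 1 / (q : ℝ) ^ 2) := Real.summable_one_div_nat_pow.2 (by norm_num)
    have h2 := (summable_nat_add_iff 1).2 h1
    refine h2.congr fun q => ?_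
    push_cast
    rfl
  have hcond : Summable (fun k : ℕ => (2 : ℝ) ^ k * ψ' (2 ^ k)) :=
    (summable_condensed_iff_of_nonneg (fun q => (hψ'0 q).le) (fun m n _ hmn => hψ'anti hmn)).2 hψ'sum
  set S2 : ℝ := ∑' k : ℕ, (2 : ℝ) ^ k * ψ' (2 ^ k) with hS2
  have hS20 : 0 ≤ S2 := tsum_nonneg fun k => mul_nonneg (by positivity) (hψ'0 _).le
  -- the error
  set Lg : ℕ → ℝ := fun H => ((Nat.log 2 (2 * H + 1) : ℝ) + 2) ^ (n + 2) with hLg
  have hLg0 : ∀ H, 0 ≤ Lg H := fun H => by simp only [hLg]; positivity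
  set Er : ℕ → ℝ := fun H => 16 * Cs * ((H : ℝ) ^ κ * ((2 * (H : ℝ) ^ (1 + 3 * κ)) ^ (2 * τ) *
    (Lg H * (H : ℝ) ^ (1 - γ)))) + 8 * Cs * ((2 * (H : ℝ) ^ (1 + 3 * κ)) ^ τ * (Lg H * H)) with hEr
  have hEr0 : ∀ H, 0 ≤ Er H := fun H => by
    have := hLg0 H
    simp only [hEr]
    positivity
  have hLgPB : PB Lg (e1 / 8) := by
    have hJ0 : PB (fun H => (((2 * H + 1 : ℕ)) : ℝ)) 1 := by
      refine ((PB.id.const_mul (fun H => by positivity) 2).add
        ((PB.const 1).mono_exp (by norm_num))).mono (Filter.Eventually.of_forall fun H => ?_)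
      push_cast
      exact le_rfl
    have h1 := (hJ0.log (by norm_num) (e1 / 8 / (n + 2)) (by positivity)).pow
      (fun H => by positivity) (n + 2)
    have h2 : ((n + 2 : ℕ) : ℝ) * (e1 / 8 / (n + 2)) = e1 / 8 := by
      push_cast
      field_simp
    rw [h2] at h1
    exact h1
  have hbase : PB (fun H => 2 * (H : ℝ) ^ (1 + 3 * κ)) (1 + 3 * κ) :=
    (PB.self _).const_mul (fun H => by positivity) 2
  have hErPB : PB Er ((n : ℝ) + 2 - e1 / 4) := by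
    have a1 := (PB.self κ).mul ((hbase.rpow (fun H => by positivity) (2 * τ) (by positivity)).mul
      (hLgPB.mul (PB.self (1 - γ)) (fun H => by positivity)) (fun H => mul_nonneg (hLg0 H)
        (by positivity))) (fun H => mul_nonneg (by positivity) (mul_nonneg (hLg0 H) (by positivity)))
    have a2 := a1.const_mul (fun H => mul_nonneg (by positivity) (mul_nonneg (by positivity)
      (mul_nonneg (hLg0 H) (by positivity)))) (16 * Cs)
    have b1 := (hbase.rpow (fun H => by positivity) τ hτ0.le).mul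
      (hLgPB.mul PB.id (fun H => by positivity)) (fun H => mul_nonneg (hLg0 H) (by positivity))
    have b2 := b1.const_mul (fun H => mul_nonneg (by positivity) (mul_nonneg (hLg0 H)
      (by positivity))) (8 * Cs)
    have hn : (0 : ℝ) ≤ n := Nat.cast_nonneg n
    refine (a2.mono_exp ?_).add (b2.mono_exp ?_)
    · have h1 : 2 * τ * (1 + 3 * κ) = e1 / 4 := by linarith
      rw [h1]
      linarith
    · rw [hτκ]
      linarith
  have hlogPB : PB (fun H => ((Nat.log 2 ⌊(H : ℝ) ^ κ⌋₊ : ℕ) : ℝ) + 2) (e1 / 8) :=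
    (PB_floor κ).log hκ0 _ (by positivity)
  have htotPB := hlogPB.mul hErPB hEr0
  have hE2 : e1 / 8 + ((n : ℝ) + 2 - e1 / 4) = ((n + 2 : ℕ) : ℝ) - e1 / 8 := by
    push_cast
    ring
  rw [hE2] at htotPB
  obtain ⟨C2, hC2, hev⟩ := htotPB
  set C1 : ℝ := (8 * 3 ^ (n + 2) + 128 * 3 ^ (n + 2) + 128 * Cs) * S2 + 1 with hC1
  have hC1p : 0 < C1 := by positivity
  refine ⟨C1 + C1 + C2, e1 / 8, by positivity, by positivity, ?_⟩
  filter_upwards [hev, eventually_ge_atTop 1] with H hH' hH c hc hc1 β θ hβγ hβH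
  have hH0 : (0 : ℝ) < H := by exact_mod_cast (by omega : 0 < H)
  have hH1 : (1 : ℝ) ≤ H := by exact_mod_cast hH
  set c' : ℝ := c + 1 / H with hc'
  have hc'0 : 0 < c' := by positivity
  have hcc' : c ≤ c' := by
    have : (0 : ℝ) < 1 / H := by positivity
    rw [hc']
    linarith
  have hc'H : 1 / (H : ℝ) ≤ c' := by rw [hc']; linarith
  set s : ℕ → ℝ := fun i => c' * ψ' (2 ^ i) with hs
  have hs0 : ∀ i, 0 < s i := fun i => mul_pos hc'0 (hψ'0 _)
  have hscond : ∀ i, c * ψ (2 ^ i) ≤ s i := by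
    intro i
    simp only [hs]
    apply mul_le_mul hcc' _ (h0 _) hc'0.le
    simp only [hψ']
    have : (0 : ℝ) ≤ 1 / (((2 ^ i : ℕ) : ℝ) + 1) ^ 2 := by positivity
    linarith
  have hsub := BD_sub ω ψ hanti c κ hc.le H β θ s hscond
  have hblock : ∀ i ∈ range (Nat.log 2 ⌊(H : ℝ) ^ κ⌋₊ + 1), ((BK ω (s i) i H β θ).card : ℝ) ≤
      (8 * 3 ^ (n + 2) + 128 * 3 ^ (n + 2) + 128 * Cs) * (c' * (2 ^ i * ψ' (2 ^ i))) *
        (H : ℝ) ^ (n + 2) + Er H := by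
    intro i hi
    rw [Finset.mem_range] at hi
    have h2i : (1 : ℝ) ≤ 2 ^ i := one_le_pow₀ (by norm_num)
    have hbox : ((bx (n + 2) H).card : ℝ) ≤ 3 ^ (n + 2) * (H : ℝ) ^ (n + 2) := by
      rw [card_bx]
      push_cast
      rw [← mul_pow]
      exact pow_le_pow_left₀ (by positivity) (by linarith) _
    have hbox2 : (2 * (H : ℝ) + 1) ^ (n + 2) ≤ 3 ^ (n + 2) * (H : ℝ) ^ (n + 2) := by
      rw [← mul_pow]
      exact pow_le_pow_left₀ (by positivity) (by linarith) _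
    have hHn : (0 : ℝ) < (H : ℝ) ^ (n + 2) := by positivity
    have hsi := hs0 i
    have hse : s i * 2 ^ i = c' * (2 ^ i * ψ' (2 ^ i)) := by
      simp only [hs]
      ring
    rw [← hse]
    rcases le_or_gt 1 (8 * s i) with hbig | hsmall
    · -- trivial bound
      have h1 : ((BK ω (s i) i H β θ).card : ℝ) ≤ 3 ^ (n + 2) * (H : ℝ) ^ (n + 2) := by
        refine le_trans (Nat.cast_le.2 ?_) hbox
        unfold BK
        exact Finset.card_filter_le _ _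
      have h2 : (1 : ℝ) ≤ 8 * (s i * 2 ^ i) := by nlinarith
      have h3 : 3 ^ (n + 2) * (H : ℝ) ^ (n + 2) ≤ 8 * 3 ^ (n + 2) * (s i * 2 ^ i) * (H : ℝ) ^ (n + 2) := by
        have : (0 : ℝ) < 3 ^ (n + 2) * (H : ℝ) ^ (n + 2) := by positivity
        nlinarith
      have h4 : 0 ≤ (128 * 3 ^ (n + 2) + 128 * Cs) * (s i * 2 ^ i) * (H : ℝ) ^ (n + 2) := by
        positivity
      have h5 := hEr0 H
      calc ((BK ω (s i) i H β θ).card : ℝ) ≤ 8 * 3 ^ (n + 2) * (s i * 2 ^ i) * (H : ℝ) ^ (n + 2) :=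
            h1.trans h3
        _ ≤ 8 * 3 ^ (n + 2) * (s i * 2 ^ i) * (H : ℝ) ^ (n + 2) +
            (128 * 3 ^ (n + 2) + 128 * Cs) * (s i * 2 ^ i) * (H : ℝ) ^ (n + 2) + Er H := by linarith
        _ = _ := by ring
    · set K : ℕ := ⌊1 / (8 * s i)⌋₊ with hK
      have h8 : (0 : ℝ) < 8 * s i := by positivity
      have hKx : (1 : ℝ) ≤ 1 / (8 * s i) := by
        rw [one_le_div h8]
        exact hsmall.le
      have hK1 : 1 ≤ K := Nat.le_floor (by exact_mod_cast hKx)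
      have hKle : (K : ℝ) ≤ 1 / (8 * s i) := Nat.floor_le (by positivity)
      have hKp : (0 : ℝ) < K := by exact_mod_cast hK1
      have hKge : 1 / (16 * s i) ≤ K := by
        have h1 := Nat.lt_floor_add_one (1 / (8 * s i))
        have h2 : (1 : ℝ) ≤ K := by exact_mod_cast hK1
        have h3 : 1 / (16 * s i) = 1 / (8 * s i) / 2 := by field_simp; norm_num
        rw [h3]
        have h4 : 1 / (8 * s i) < (K : ℝ) + 1 := h1
        linarith
      have hsK : s i ≤ 1 / (8 * K) := by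
        rw [le_div_iff₀ (by positivity)]
        rw [le_div_iff₀ h8] at hKle
        linarith
      have hKinv : 1 / (K : ℝ) ≤ 16 * s i := by
        rw [div_le_iff₀ (by positivity)] at hKge
        rw [div_le_iff₀ hKp]
        linarith
      have h1 := BK_card ω (s i) i H β θ K hK1 hsK
      have h2 := hsums H hH β hβγ hβH (K * 2 ^ (i + 1))
      set M : ℝ := ((K * 2 ^ (i + 1) : ℕ) : ℝ) with hM
      have hMe : M = K * (2 * 2 ^ i) := by
        rw [hM]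
        push_cast
        ring
      have hM0 : 0 < M := by rw [hMe]; positivity
      have hiκ : (2 : ℝ) ^ i ≤ (H : ℝ) ^ κ := by
        rcases Nat.eq_zero_or_pos ⌊(H : ℝ) ^ κ⌋₊ with h | h
        · rw [h, Nat.log_zero_right] at hi
          have : i = 0 := by omega
          rw [this, pow_zero]
          exact Real.one_le_rpow hH1 hκ0
        · have h3 : 2 ^ i ≤ ⌊(H : ℝ) ^ κ⌋₊ := Nat.pow_le_of_le_log (by omega) (by omega)
          have h4 : (2 : ℝ) ^ i ≤ (⌊(H : ℝ) ^ κ⌋₊ : ℝ) := by exact_mod_cast h3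
          exact h4.trans (Nat.floor_le (by positivity))
      have hKH : (K : ℝ) ≤ (H : ℝ) * (2 ^ i) ^ 2 := by
        refine hKle.trans ?_
        rw [div_le_iff₀ h8]
        have h3 : 1 / (((2 ^ i : ℕ) : ℝ) + 1) ^ 2 ≤ ψ' (2 ^ i) := by
          simp only [hψ']
          have := h0 (2 ^ i)
          linarith
        have h4 : 1 / (4 * ((2 : ℝ) ^ i) ^ 2) ≤ ψ' (2 ^ i) := by
          refine le_trans ?_ h3
          apply one_div_le_one_div_of_le (by positivity)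
          push_cast
          nlinarith
        have h5 : 1 / (H : ℝ) * (1 / (4 * ((2 : ℝ) ^ i) ^ 2)) ≤ s i := by
          simp only [hs]
          exact mul_le_mul hc'H h4 (by positivity) hc'0.le
        have h6 : (H : ℝ) * (2 ^ i) ^ 2 * (8 * (1 / (H : ℝ) * (1 / (4 * ((2 : ℝ) ^ i) ^ 2)))) = 2 := by
          field_simp
          norm_num
        have h7 : (H : ℝ) * (2 ^ i) ^ 2 * (8 * (1 / (H : ℝ) * (1 / (4 * ((2 : ℝ) ^ i) ^ 2)))) ≤
            (H : ℝ) * (2 ^ i) ^ 2 * (8 * s i) := by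
          apply mul_le_mul_of_nonneg_left _ (by positivity)
          linarith
        linarith
      have hMle : M ≤ 2 * (H : ℝ) ^ (1 + 3 * κ) := by
        rw [hMe]
        have h3 : (H : ℝ) ^ (1 + 3 * κ) = H * ((H : ℝ) ^ κ) ^ 3 := by
          rw [Real.rpow_add hH0, Real.rpow_one, ← Real.rpow_natCast, ← Real.rpow_mul hH0.le]
          congr 2
          push_cast
          ring
        rw [h3]
        calc (K : ℝ) * (2 * 2 ^ i) ≤ ((H : ℝ) * (2 ^ i) ^ 2) * (2 * 2 ^ i) :=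
              mul_le_mul_of_nonneg_right hKH (by positivity)
          _ = 2 * (H * (2 ^ i) ^ 3) := by ring
          _ ≤ 2 * (H * ((H : ℝ) ^ κ) ^ 3) := by gcongr
      have hexp1 : M ^ τ * M ^ (1 + τ) = M * M ^ (2 * τ) := by
        rw [← Real.rpow_add hM0]
        conv_rhs => rw [← Real.rpow_one M, ← Real.rpow_mul hM0.le, one_mul, ← Real.rpow_add hM0]
        congr 1
        ring
      have hr1 : M ^ (2 * τ) ≤ (2 * (H : ℝ) ^ (1 + 3 * κ)) ^ (2 * τ) :=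
        Real.rpow_le_rpow hM0.le hMle (by positivity)
      have hr2 : M ^ τ ≤ (2 * (H : ℝ) ^ (1 + 3 * κ)) ^ τ := Real.rpow_le_rpow hM0.le hMle hτ0.le
      have hLgH := hLg0 H
      -- the four terms
      have t1 : 4 / (K : ℝ) * (((2 ^ (i + 1) : ℕ) : ℝ) * (2 * H + 1) ^ (n + 2)) ≤
          128 * 3 ^ (n + 2) * (s i * 2 ^ i) * (H : ℝ) ^ (n + 2) := by
        calc 4 / (K : ℝ) * (((2 ^ (i + 1) : ℕ) : ℝ) * (2 * H + 1) ^ (n + 2)) =
            (1 / (K : ℝ)) * (8 * 2 ^ i * (2 * (H : ℝ) + 1) ^ (n + 2)) := by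
              push_cast
              ring
          _ ≤ (16 * s i) * (8 * 2 ^ i * (3 ^ (n + 2) * (H : ℝ) ^ (n + 2))) := by
              apply mul_le_mul hKinv _ (by positivity) (by positivity)
              exact mul_le_mul_of_nonneg_left hbox2 (by positivity)
          _ = _ := by ring
      have t2 : 4 / (K : ℝ) * (2 * (Cs * (H : ℝ) ^ (n + 2))) ≤
          128 * Cs * (s i * 2 ^ i) * (H : ℝ) ^ (n + 2) := by
        calc 4 / (K : ℝ) * (2 * (Cs * (H : ℝ) ^ (n + 2))) = (1 / (K : ℝ)) * (8 * Cs * (H : ℝ) ^ (n + 2)) := by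
              ring
          _ ≤ (16 * s i) * (8 * Cs * (H : ℝ) ^ (n + 2)) :=
              mul_le_mul_of_nonneg_right hKinv (by positivity)
          _ = 128 * Cs * (s i * 1) * (H : ℝ) ^ (n + 2) := by ring
          _ ≤ _ := by gcongr
      have t3 : 4 / (K : ℝ) * (2 * (Cs * (M ^ τ * (Lg H * (M ^ (1 + τ) * (H : ℝ) ^ (1 - γ)))))) ≤
          16 * Cs * ((H : ℝ) ^ κ * ((2 * (H : ℝ) ^ (1 + 3 * κ)) ^ (2 * τ) *
            (Lg H * (H : ℝ) ^ (1 - γ)))) := by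
        have h3 : M / K = 2 * 2 ^ i := by
          rw [hMe]
          field_simp
        calc 4 / (K : ℝ) * (2 * (Cs * (M ^ τ * (Lg H * (M ^ (1 + τ) * (H : ℝ) ^ (1 - γ)))))) =
            8 * Cs * (Lg H * (H : ℝ) ^ (1 - γ)) * ((M ^ τ * M ^ (1 + τ)) / K) := by ring
          _ = 8 * Cs * (Lg H * (H : ℝ) ^ (1 - γ)) * ((M / K) * M ^ (2 * τ)) := by rw [hexp1]; ring
          _ = 16 * Cs * (2 ^ i * (M ^ (2 * τ) * (Lg H * (H : ℝ) ^ (1 - γ)))) := by rw [h3]; ring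
          _ ≤ _ := by
              apply mul_le_mul_of_nonneg_left _ (by positivity)
              apply mul_le_mul hiκ _ (by positivity) (by positivity)
              exact mul_le_mul_of_nonneg_right hr1 (by positivity)
      have t4 : 4 / (K : ℝ) * (2 * (Cs * (M ^ τ * (Lg H * H)))) ≤
          8 * Cs * ((2 * (H : ℝ) ^ (1 + 3 * κ)) ^ τ * (Lg H * H)) := by
        have h3 : 1 / (K : ℝ) ≤ 1 := by
          rw [div_le_one hKp]
          exact_mod_cast hK1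
        calc 4 / (K : ℝ) * (2 * (Cs * (M ^ τ * (Lg H * H)))) =
            (1 / (K : ℝ)) * (8 * Cs * (M ^ τ * (Lg H * H))) := by ring
          _ ≤ 1 * (8 * Cs * (M ^ τ * (Lg H * H))) := mul_le_mul_of_nonneg_right h3 (by positivity)
          _ ≤ _ := by
              rw [one_mul]
              apply mul_le_mul_of_nonneg_left _ (by positivity)
              exact mul_le_mul_of_nonneg_right hr2 (by positivity)
      have hLgd : ((Nat.log 2 (2 * H + 1) : ℝ) + 2) ^ (n + 2) = Lg H := rfl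
      rw [hLgd] at h2
      have h3 : 4 / (K : ℝ) * (((2 ^ (i + 1) : ℕ) : ℝ) * (2 * H + 1) ^ (n + 2) +
          2 * ∑ l ∈ Icc 1 (K * 2 ^ (i + 1)), (l.divisors.card : ℝ) *
            ∏ i, gn (2 * H + 1) (l * (ω i / β))) ≤
          4 / (K : ℝ) * (((2 ^ (i + 1) : ℕ) : ℝ) * (2 * H + 1) ^ (n + 2) +
          2 * (Cs * ((H : ℝ) ^ (n + 2) + M ^ τ * (Lg H * (M ^ (1 + τ) * (H : ℝ) ^ (1 - γ) + H))))) := by
        apply mul_le_mul_of_nonneg_left _ (by positivity)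
        linarith
      refine h1.trans (h3.trans ?_)
      have h4 : 4 / (K : ℝ) * (((2 ^ (i + 1) : ℕ) : ℝ) * (2 * H + 1) ^ (n + 2) +
          2 * (Cs * ((H : ℝ) ^ (n + 2) + M ^ τ * (Lg H * (M ^ (1 + τ) * (H : ℝ) ^ (1 - γ) + H))))) =
          4 / (K : ℝ) * (((2 ^ (i + 1) : ℕ) : ℝ) * (2 * H + 1) ^ (n + 2)) +
          4 / (K : ℝ) * (2 * (Cs * (H : ℝ) ^ (n + 2))) +
          4 / (K : ℝ) * (2 * (Cs * (M ^ τ * (Lg H * (M ^ (1 + τ) * (H : ℝ) ^ (1 - γ)))))) +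
          4 / (K : ℝ) * (2 * (Cs * (M ^ τ * (Lg H * H)))) := by ring
      rw [h4]
      have h5 : 0 ≤ 8 * 3 ^ (n + 2) * (s i * 2 ^ i) * (H : ℝ) ^ (n + 2) := by positivity
      have h6 : (8 * 3 ^ (n + 2) + 128 * 3 ^ (n + 2) + 128 * Cs) * (s i * 2 ^ i) * (H : ℝ) ^ (n + 2) +
          Er H = 8 * 3 ^ (n + 2) * (s i * 2 ^ i) * (H : ℝ) ^ (n + 2) +
          128 * 3 ^ (n + 2) * (s i * 2 ^ i) * (H : ℝ) ^ (n + 2) +
          128 * Cs * (s i * 2 ^ i) * (H : ℝ) ^ (n + 2) + Er H := by ring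
      rw [h6]
      simp only [hEr]
      linarith
  have hcard := (Finset.card_le_card hsub).trans Finset.card_biUnion_le
  have hsum2 : ∑ i ∈ range (Nat.log 2 ⌊(H : ℝ) ^ κ⌋₊ + 1), (2 : ℝ) ^ i * ψ' (2 ^ i) ≤ S2 :=
    hcond.sum_le_tsum _ (fun i _ => mul_nonneg (by positivity) (hψ'0 _).le)
  have hHn : (0 : ℝ) < (H : ℝ) ^ (n + 2) := by positivity
  set Ck : ℝ := 8 * 3 ^ (n + 2) + 128 * 3 ^ (n + 2) + 128 * Cs with hCk
  have hCk0 : 0 < Ck := by positivity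
  have hexpH : (H : ℝ) ^ (((n + 2 : ℕ) : ℝ) - e1 / 8) = (H : ℝ) ^ (-(e1 / 8)) * (H : ℝ) ^ (n + 2) := by
    rw [← Real.rpow_natCast, ← Real.rpow_add hH0]
    congr 1
    ring
  rw [hexpH] at hH'
  have hinv : 1 / (H : ℝ) ≤ (H : ℝ) ^ (-(e1 / 8)) := by
    rw [one_div, ← Real.rpow_neg_one]
    apply Real.rpow_le_rpow_of_exponent_le hH1
    linarith
  calc ((BD ω ψ c κ H β θ).card : ℝ) ≤
      ∑ i ∈ range (Nat.log 2 ⌊(H : ℝ) ^ κ⌋₊ + 1), ((BK ω (s i) i H β θ).card : ℝ) := by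
        have := (Nat.cast_le (α := ℝ)).2 hcard
        push_cast at this
        exact this
    _ ≤ ∑ i ∈ range (Nat.log 2 ⌊(H : ℝ) ^ κ⌋₊ + 1),
        (Ck * (c' * (2 ^ i * ψ' (2 ^ i))) * (H : ℝ) ^ (n + 2) + Er H) := Finset.sum_le_sum hblock
    _ = Ck * c' * (H : ℝ) ^ (n + 2) * ∑ i ∈ range (Nat.log 2 ⌊(H : ℝ) ^ κ⌋₊ + 1),
          (2 : ℝ) ^ i * ψ' (2 ^ i) + ((Nat.log 2 ⌊(H : ℝ) ^ κ⌋₊ : ℝ) + 1) * Er H := by
        rw [Finset.sum_add_distrib, Finset.sum_const, Finset.card_range, nsmul_eq_mul,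
          Finset.mul_sum]
        congr 1
        · refine Finset.sum_congr rfl fun i _ => ?_
          ring
        · push_cast
          ring
    _ ≤ Ck * c' * (H : ℝ) ^ (n + 2) * S2 + ((Nat.log 2 ⌊(H : ℝ) ^ κ⌋₊ : ℝ) + 2) * Er H := by
        apply add_le_add
        · exact mul_le_mul_of_nonneg_left hsum2 (by positivity)
        · exact mul_le_mul_of_nonneg_right (by linarith) (hEr0 H)
    _ ≤ C1 * (c + (H : ℝ) ^ (-(e1 / 8))) * (H : ℝ) ^ (n + 2) +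
        C2 * ((H : ℝ) ^ (-(e1 / 8)) * (H : ℝ) ^ (n + 2)) := by
        apply add_le_add _ hH'
        have h1 : c' ≤ c + (H : ℝ) ^ (-(e1 / 8)) := by rw [hc']; linarith
        calc Ck * c' * (H : ℝ) ^ (n + 2) * S2 = (Ck * S2) * c' * (H : ℝ) ^ (n + 2) := by ring
          _ ≤ C1 * (c + (H : ℝ) ^ (-(e1 / 8))) * (H : ℝ) ^ (n + 2) := by
              apply mul_le_mul_of_nonneg_right _ hHn.le
              apply mul_le_mul _ h1 hc'0.le hC1p.le
              rw [hC1]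
              linarith
    _ ≤ _ := by
        have h5 : (0 : ℝ) < (H : ℝ) ^ (-(e1 / 8)) := by positivity
        have h7 : (C1 + C1 + C2) * (c + (H : ℝ) ^ (-(e1 / 8))) * (H : ℝ) ^ (n + 2) =
            C1 * (c + (H : ℝ) ^ (-(e1 / 8))) * (H : ℝ) ^ (n + 2) +
            C2 * ((H : ℝ) ^ (-(e1 / 8)) * (H : ℝ) ^ (n + 2)) +
            (C1 * (c + (H : ℝ) ^ (-(e1 / 8))) * (H : ℝ) ^ (n + 2) + C2 * c * (H : ℝ) ^ (n + 2)) := by
          ring
        rw [h7]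
        have h8 : 0 ≤ C1 * (c + (H : ℝ) ^ (-(e1 / 8))) * (H : ℝ) ^ (n + 2) +
            C2 * c * (H : ℝ) ^ (n + 2) := by positivity
        linarith

end Pool.Agent.NH20.NG
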