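import Mathlib
import Pool.Agent.NH20.NG.Dil

/-!
# Bad vectors for the linear form `(θ + x_0 ω_0 + ... ) / β`, uniformly in `β`, `θ`, for all `H`
-/

set_option autoImplicit false

open Finset Filter Topology

namespace Pool.Agent.NH20.NG

open Pool.Agent.NH20.NF

/-- **The dilation theorem** -/
theorem dil {n : ℕ} (ω : Fin (n + 2) → ℝ) (halg : ∀ i, IsAlgebraic ℚ (ω i)) (hli : LI ω)
    (C0 γ : ℝ) (hC0 : 1 ≤ C0) (hγ0 : 0 ≤ γ) (hγ1 : γ ≤ 1)
    (κ : ℝ) (hκ : κ < n + 1 + γ) (ψ : ℕ → ℝ) (hanti : Antitone ψ)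
    (h0 : ∀ q, 0 ≤ ψ q) (hsum : Summable ψ) :
    ∃ C δ : ℝ, 0 < C ∧ 0 < δ ∧ ∀ c : ℝ, 0 < c → c ≤ 1 → ∀ H : ℕ, 1 ≤ H → ∀ β θ : ℝ,
      (H : ℝ) ^ γ ≤ |β| → |β| ≤ C0 * H →
      ((BD ω ψ c κ H β θ).card : ℝ) ≤ C * (c + (H : ℝ) ^ (-δ)) * (H : ℝ) ^ (n + 2) := by
  classical
  have hn : (0 : ℝ) ≤ n := Nat.cast_nonneg n
  obtain ⟨C, δ, hC, hδ, hev⟩ := dil_aux ω halg hli C0 γ hC0 hγ0 hγ1 (max κ 0) (le_max_right _ _)
    (max_lt hκ (by linarith)) ψ hanti h0 hsum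
  obtain ⟨H0, hH0⟩ := Filter.eventually_atTop.1 hev
  refine ⟨C + 3 ^ (n + 2) * ((H0 : ℝ) + 1) ^ δ, δ, by positivity, hδ,
    fun c hc hc1 H hH β θ hβγ hβH => ?_⟩
  have hHp : (0 : ℝ) < H := by exact_mod_cast (by omega : 0 < H)
  have hH1 : (1 : ℝ) ≤ H := by exact_mod_cast hH
  have h6 : (0 : ℝ) < (H : ℝ) ^ (-δ) := by positivity
  rcases le_total H0 H with h | h
  · have h1 := hH0 H h c hc hc1 β θ hβγ hβH
    have h2 : ((BD ω ψ c κ H β θ).card : ℝ) ≤ ((BD ω ψ c (max κ 0) H β θ).card : ℝ) := by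
      apply Nat.cast_le.2
      apply Finset.card_le_card
      intro x hx
      unfold BD at hx ⊢
      rw [Finset.mem_filter] at hx ⊢
      obtain ⟨h3, q, h4, h5, h7⟩ := hx
      exact ⟨h3, q, h4, h5.trans (Real.rpow_le_rpow_of_exponent_le hH1 (le_max_left _ _)), h7⟩
    refine (h2.trans h1).trans ?_
    have h3 : 0 ≤ 3 ^ (n + 2) * ((H0 : ℝ) + 1) ^ δ * ((c + (H : ℝ) ^ (-δ)) * (H : ℝ) ^ (n + 2)) := by
      positivity
    nlinarith
  · have h1 : ((BD ω ψ c κ H β θ).card : ℝ) ≤ 3 ^ (n + 2) * (H : ℝ) ^ (n + 2) := by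
      have h2 : (BD ω ψ c κ H β θ).card ≤ (2 * H + 1) ^ (n + 2) := by
        rw [← card_bx]
        unfold BD
        exact Finset.card_filter_le _ _
      calc ((BD ω ψ c κ H β θ).card : ℝ) ≤ (2 * H + 1) ^ (n + 2) := by exact_mod_cast h2
        _ ≤ (3 * (H : ℝ)) ^ (n + 2) := pow_le_pow_left₀ (by positivity) (by linarith) _
        _ = _ := by rw [mul_pow]
    have h2 : (1 : ℝ) ≤ ((H0 : ℝ) + 1) ^ δ * (H : ℝ) ^ (-δ) := by
      rw [Real.rpow_neg hHp.le, ← div_eq_mul_inv, one_le_div (by positivity)]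
      apply Real.rpow_le_rpow hHp.le _ hδ.le
      have : (H : ℝ) ≤ H0 := by exact_mod_cast h
      linarith
    have h3 : (0 : ℝ) ≤ 3 ^ (n + 2) * (H : ℝ) ^ (n + 2) := by positivity
    calc ((BD ω ψ c κ H β θ).card : ℝ) ≤ 3 ^ (n + 2) * (H : ℝ) ^ (n + 2) := h1
      _ ≤ (3 ^ (n + 2) * (H : ℝ) ^ (n + 2)) * (((H0 : ℝ) + 1) ^ δ * (H : ℝ) ^ (-δ)) := by
          nlinarith
      _ ≤ (3 ^ (n + 2) * (H : ℝ) ^ (n + 2)) * (((H0 : ℝ) + 1) ^ δ * (c + (H : ℝ) ^ (-δ))) := by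
          apply mul_le_mul_of_nonneg_left _ h3
          apply mul_le_mul_of_nonneg_left _ (by positivity)
          linarith
      _ = (3 ^ (n + 2) * ((H0 : ℝ) + 1) ^ δ) * (c + (H : ℝ) ^ (-δ)) * (H : ℝ) ^ (n + 2) := by ring
      _ ≤ _ := by
          apply mul_le_mul_of_nonneg_right _ (by positivity)
          apply mul_le_mul_of_nonneg_right _ (by positivity)
          linarith

/-- few vectors with `|L (y)|` small -/
lemma few_small {n : ℕ} (ω : Fin (n + 2) → ℝ) {w0 W1 C0 γ : ℝ} (h : Dat ω w0 W1 C0 γ) (H : ℕ)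
    (hH : 1 ≤ H) :
    (((bx (n + 2) H).filter (fun y => |lf ω y| < (H : ℝ) ^ γ)).card : ℝ) ≤
      3 ^ (n + 1) * (2 / w0 + 1) * ((H : ℝ) ^ (n + 1) * (H : ℝ) ^ γ) := by
  classical
  have hH0 : (0 : ℝ) < H := by exact_mod_cast (by omega : 0 < H)
  have hH1 : (1 : ℝ) ≤ H := by exact_mod_cast hH
  have hw0 := h.hw0
  set S := (bx (n + 2) H).filter (fun y => |lf ω y| < (H : ℝ) ^ γ) with hS
  set f : (Fin (n + 2) → ℤ) → (Fin (n + 1) → ℤ) := fun y => fun i => y i.succ with hf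
  have himg : (S.image f) ⊆ bx (n + 1) H := by
    intro z hz
    rw [Finset.mem_image] at hz
    obtain ⟨y, hy, rfl⟩ := hz
    rw [hS, Finset.mem_filter, mem_bx] at hy
    rw [mem_bx]
    intro i
    exact hy.1 i.succ
  have hfib : ∀ z ∈ S.image f, ((S.filter (fun y => f y = z)).card : ℝ) ≤
      2 * (H : ℝ) ^ γ / w0 + 1 := by
    intro z _
    have h0 := h.li.ne_zero 0
    set T := (S.filter (fun y => f y = z)) with hT
    have hinj : Set.InjOn (fun y : Fin (n + 2) → ℤ => y 0) (T : Set (Fin (n + 2) → ℤ)) := by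
      intro y hy y' hy' h1
      have h2 := (Finset.mem_filter.1 (Finset.mem_coe.1 hy)).2
      have h3 := (Finset.mem_filter.1 (Finset.mem_coe.1 hy')).2
      funext i
      refine Fin.cases h1 (fun i' => ?_) i
      have h4 : f y i' = f y' i' := by rw [h2, h3]
      exact h4
    set r : ℝ := ∑ i : Fin (n + 1), (z i : ℝ) * ω i.succ with hr
    have hsp := spacing T (fun y => ((y 0 : ℤ) : ℝ)) (-r / ω 0 - (H : ℝ) ^ γ / |ω 0|)
      (-r / ω 0 + (H : ℝ) ^ γ / |ω 0|) 1 one_pos (by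
        intro y hy
        have h2 := (Finset.mem_filter.1 hy).2
        have h3 := (Finset.mem_filter.1 (Finset.mem_filter.1 hy).1).2
        have h4 : lf ω y = y 0 * ω 0 + r := by
          unfold lf
          rw [Fin.sum_univ_succ, hr, ← h2]
        rw [h4] at h3
        have h5 : |((y 0 : ℤ) : ℝ) - (-r / ω 0)| ≤ (H : ℝ) ^ γ / |ω 0| := by
          have h6 : ((y 0 : ℤ) : ℝ) - (-r / ω 0) = (y 0 * ω 0 + r) / ω 0 := by
            field_simp
            ring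
          rw [h6, abs_div]
          exact div_le_div_of_nonneg_right h3.le (abs_nonneg _)
        have h6 := abs_le.1 h5
        constructor <;> linarith [h6.1, h6.2])
      (by
        intro y hy y' hy' hne
        have h2 : y 0 ≠ y' 0 := fun h3 => hne (hinj (Finset.mem_coe.2 hy) (Finset.mem_coe.2 hy') h3)
        have h3 := Int.one_le_abs (sub_ne_zero.2 h2)
        exact_mod_cast h3)
      (by
        have : 0 ≤ (H : ℝ) ^ γ / |ω 0| := by positivity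
        linarith)
    refine hsp.trans ?_
    have h2 : (H : ℝ) ^ γ / |ω 0| ≤ (H : ℝ) ^ γ / w0 :=
      div_le_div_of_nonneg_left (by positivity) hw0 (h.hlow 0)
    have h3 : (-r / ω 0 + (H : ℝ) ^ γ / |ω 0| - (-r / ω 0 - (H : ℝ) ^ γ / |ω 0|)) / 1 + 1 =
        2 * ((H : ℝ) ^ γ / |ω 0|) + 1 := by ring
    rw [h3]
    have h4 : 2 * (H : ℝ) ^ γ / w0 = 2 * ((H : ℝ) ^ γ / w0) := by ring
    rw [h4]
    linarith
  have hHγ : (1 : ℝ) ≤ (H : ℝ) ^ γ := Real.one_le_rpow hH1 h.hγ0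
  calc (S.card : ℝ) = ∑ z ∈ S.image f, ((S.filter (fun y => f y = z)).card : ℝ) := by
        rw [Finset.card_eq_sum_card_image f S]
        push_cast
        rfl
    _ ≤ ∑ z ∈ S.image f, (2 * (H : ℝ) ^ γ / w0 + 1) := Finset.sum_le_sum hfib
    _ = (S.image f).card * (2 * (H : ℝ) ^ γ / w0 + 1) := by rw [Finset.sum_const, nsmul_eq_mul]
    _ ≤ (3 ^ (n + 1) * (H : ℝ) ^ (n + 1)) * ((2 / w0 + 1) * (H : ℝ) ^ γ) := by
        apply mul_le_mul _ _ (by positivity) (by positivity)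
        · have h1 := Finset.card_le_card himg
          rw [card_bx] at h1
          calc ((S.image f).card : ℝ) ≤ (2 * H + 1) ^ (n + 1) := by exact_mod_cast h1
            _ ≤ (3 * (H : ℝ)) ^ (n + 1) := pow_le_pow_left₀ (by positivity) (by linarith) _
            _ = _ := by rw [mul_pow]
        · have : 2 * (H : ℝ) ^ γ / w0 + 1 ≤ (2 / w0 + 1) * (H : ℝ) ^ γ := by
            have e : (2 / w0 + 1) * (H : ℝ) ^ γ = 2 * (H : ℝ) ^ γ / w0 + (H : ℝ) ^ γ := by ring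
            rw [e]
            linarith
          exact this
    _ = _ := by ring

open Classical in
/-- the bad pairs `(x, y)` -/
noncomputable def BQ {n : ℕ} (ω : Fin n → ℝ) (ψ : ℕ → ℝ) (c κ : ℝ) (H : ℕ) :
    Finset ((Fin n → ℤ) × (Fin n → ℤ)) :=
  (bx n H ×ˢ bx n H).filter fun v => lf ω v.2 ≠ 0 ∧ ∃ q : ℕ, 1 ≤ q ∧ (q : ℝ) ≤ (H : ℝ) ^ κ ∧
    ∃ p : ℤ, |q * (lf ω v.1 / lf ω v.2) - p| ≤ c * ψ q

/-- **Bad quotients of two values of the linear form** -/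
theorem quot {n : ℕ} (ω : Fin (n + 2) → ℝ) (halg : ∀ i, IsAlgebraic ℚ (ω i)) (hli : LI ω)
    (κ : ℝ) (hκ : κ < n + 2) (ψ : ℕ → ℝ) (hanti : Antitone ψ)
    (h0 : ∀ q, 0 ≤ ψ q) (hsum : Summable ψ) :
    ∃ C δ : ℝ, 0 < C ∧ 0 < δ ∧ ∀ c : ℝ, 0 < c → c ≤ 1 → ∀ H : ℕ, 1 ≤ H →
      ((BQ ω ψ c κ H).card : ℝ) ≤ C * (c + (H : ℝ) ^ (-δ)) * (H : ℝ) ^ (2 * (n + 2)) := by
  classical
  -- the exponent
  obtain ⟨γ, hγ0, hγ1, hγκ⟩ : ∃ γ : ℝ, 0 ≤ γ ∧ γ < 1 ∧ κ < n + 1 + γ := by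
    refine ⟨max 0 (1 - (n + 2 - κ) / 2), le_max_left _ _, max_lt one_pos (by linarith), ?_⟩
    have := le_max_right 0 (1 - (n + 2 - κ) / 2)
    linarith
  obtain ⟨w0', W1', hd1⟩ := exists_dat ω hli 1 γ le_rfl hγ0 hγ1.le
  set C0 : ℝ := max 1 ((n + 2) * W1') with hC0
  have hC01 : 1 ≤ C0 := le_max_left _ _
  obtain ⟨w0, W1, hdat⟩ := exists_dat ω hli C0 γ hC01 hγ0 hγ1.le
  obtain ⟨C, δ, hC, hδ, hdil⟩ := dil ω halg hli C0 γ hC01 hγ0 hγ1.le κ hγκ ψ hanti h0 hsum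
  have hw0 := hdat.hw0
  set δ' : ℝ := min δ (1 - γ) with hδ'
  have hδ'0 : 0 < δ' := lt_min hδ (by linarith)
  refine ⟨3 ^ (n + 2) * C + 3 ^ (n + 2) * (3 ^ (n + 1) * (2 / w0 + 1)), δ', by positivity, hδ'0,
    fun c hc hc1 H hH => ?_⟩
  have hH0 : (0 : ℝ) < H := by exact_mod_cast (by omega : 0 < H)
  have hH1 : (1 : ℝ) ≤ H := by exact_mod_cast hH
  set Sm := (bx (n + 2) H).filter (fun y => |lf ω y| < (H : ℝ) ^ γ) with hSm
  set Lr := (bx (n + 2) H).filter (fun y => ¬ |lf ω y| < (H : ℝ) ^ γ) with hLr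
  have hsub : BQ ω ψ c κ H ⊆ (bx (n + 2) H ×ˢ Sm) ∪
      Lr.biUnion fun y => (BD ω ψ c κ H (lf ω y) 0).image (fun x => (x, y)) := by
    rintro ⟨x, y⟩ hv
    unfold BQ at hv
    rw [Finset.mem_filter, Finset.mem_product] at hv
    obtain ⟨⟨h1, h2⟩, h3, q, h4, h5, p, h6⟩ := hv
    simp only at h1 h2 h3 h6
    rw [Finset.mem_union]
    by_cases h7 : |lf ω y| < (H : ℝ) ^ γ
    · left
      rw [Finset.mem_product]
      exact ⟨h1, Finset.mem_filter.2 ⟨h2, h7⟩⟩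
    · right
      rw [Finset.mem_biUnion]
      refine ⟨y, Finset.mem_filter.2 ⟨h2, h7⟩, ?_⟩
      rw [Finset.mem_image]
      refine ⟨x, ?_, rfl⟩
      unfold BD
      rw [Finset.mem_filter]
      refine ⟨h1, q, h4, h5, p, ?_⟩
      rw [zero_add]
      exact h6
  have hcard := (Finset.card_le_card hsub).trans (Finset.card_union_le _ _)
  have hbox : ((bx (n + 2) H).card : ℝ) ≤ 3 ^ (n + 2) * (H : ℝ) ^ (n + 2) := by
    rw [card_bx]
    push_cast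
    rw [← mul_pow]
    exact pow_le_pow_left₀ (by positivity) (by linarith) _
  have hexp1 : (H : ℝ) ^ (-δ) ≤ (H : ℝ) ^ (-δ') :=
    Real.rpow_le_rpow_of_exponent_le hH1 (by linarith [min_le_left δ (1 - γ)])
  have hpart1 : ((bx (n + 2) H ×ˢ Sm).card : ℝ) ≤ 3 ^ (n + 2) * (3 ^ (n + 1) * (2 / w0 + 1)) *
      ((H : ℝ) ^ (-δ') * (H : ℝ) ^ (2 * (n + 2))) := by
    rw [Finset.card_product]
    push_cast
    have h1 := few_small ω hdat H hH
    have h2 : (H : ℝ) ^ (n + 1) * (H : ℝ) ^ γ ≤ (H : ℝ) ^ (-δ') * (H : ℝ) ^ (n + 2) := by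
      have e1 : (H : ℝ) ^ (n + 1) * (H : ℝ) ^ γ = (H : ℝ) ^ (-(1 - γ)) * (H : ℝ) ^ (n + 2) := by
        rw [← Real.rpow_natCast, ← Real.rpow_natCast, ← Real.rpow_add hH0, ← Real.rpow_add hH0]
        congr 1
        push_cast
        ring
      rw [e1]
      apply mul_le_mul_of_nonneg_right _ (by positivity)
      exact Real.rpow_le_rpow_of_exponent_le hH1 (by linarith [min_le_right δ (1 - γ)])
    calc ((bx (n + 2) H).card : ℝ) * (Sm.card : ℝ) ≤ (3 ^ (n + 2) * (H : ℝ) ^ (n + 2)) *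
          (3 ^ (n + 1) * (2 / w0 + 1) * ((H : ℝ) ^ (n + 1) * (H : ℝ) ^ γ)) :=
          mul_le_mul hbox h1 (by positivity) (by positivity)
      _ ≤ (3 ^ (n + 2) * (H : ℝ) ^ (n + 2)) *
          (3 ^ (n + 1) * (2 / w0 + 1) * ((H : ℝ) ^ (-δ') * (H : ℝ) ^ (n + 2))) := by
          gcongr
      _ = _ := by ring
  have hpart2 : (((Lr.biUnion fun y => (BD ω ψ c κ H (lf ω y) 0).image (fun x => (x, y))).card : ℕ) : ℝ) ≤
      3 ^ (n + 2) * C * (c + (H : ℝ) ^ (-δ')) * (H : ℝ) ^ (2 * (n + 2)) := by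
    have h1 : (((Lr.biUnion fun y => (BD ω ψ c κ H (lf ω y) 0).image (fun x => (x, y))).card : ℕ) : ℝ) ≤
        ∑ y ∈ Lr, (((BD ω ψ c κ H (lf ω y) 0).image (fun x => (x, y))).card : ℝ) := by
      have := (Nat.cast_le (α := ℝ)).2 (Finset.card_biUnion_le
        (s := Lr) (t := fun y => (BD ω ψ c κ H (lf ω y) 0).image (fun x => (x, y))))
      push_cast at this
      exact this
    have h2 : ∀ y ∈ Lr, (((BD ω ψ c κ H (lf ω y) 0).image (fun x => (x, y))).card : ℝ) ≤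
        C * (c + (H : ℝ) ^ (-δ')) * (H : ℝ) ^ (n + 2) := by
      intro y hy
      rw [hLr, Finset.mem_filter, mem_bx, not_lt] at hy
      refine le_trans (Nat.cast_le.2 Finset.card_image_le) ?_
      refine (hdil c hc hc1 H hH (lf ω y) 0 hy.2 ?_).trans ?_
      · have h3 : |lf ω y| ≤ ∑ i : Fin (n + 2), (H : ℝ) * W1' := by
          unfold lf
          refine (Finset.abs_sum_le_sum_abs _ _).trans (Finset.sum_le_sum fun i _ => ?_)
          rw [abs_mul]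
          have h4 : |((y i : ℤ) : ℝ)| ≤ H := by exact_mod_cast hy.1 i
          exact mul_le_mul h4 (hd1.hup i) (abs_nonneg _) hH0.le
        rw [Finset.sum_const, Finset.card_univ, Fintype.card_fin, nsmul_eq_mul] at h3
        push_cast at h3
        calc |lf ω y| ≤ (n + 2) * (H * W1') := h3
          _ = ((n + 2) * W1') * H := by ring
          _ ≤ C0 * H := mul_le_mul_of_nonneg_right (le_max_right _ _) hH0.le
      · apply mul_le_mul_of_nonneg_right _ (by positivity)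
        apply mul_le_mul_of_nonneg_left _ hC.le
        linarith
    refine h1.trans ((Finset.sum_le_sum h2).trans ?_)
    rw [Finset.sum_const, nsmul_eq_mul]
    have h3 : (Lr.card : ℝ) ≤ 3 ^ (n + 2) * (H : ℝ) ^ (n + 2) := by
      refine le_trans (Nat.cast_le.2 ?_) hbox
      rw [hLr]
      exact Finset.card_filter_le _ _
    calc (Lr.card : ℝ) * (C * (c + (H : ℝ) ^ (-δ')) * (H : ℝ) ^ (n + 2)) ≤
        (3 ^ (n + 2) * (H : ℝ) ^ (n + 2)) * (C * (c + (H : ℝ) ^ (-δ')) * (H : ℝ) ^ (n + 2)) :=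
          mul_le_mul_of_nonneg_right h3 (by positivity)
      _ = _ := by ring
  have hcard' : ((BQ ω ψ c κ H).card : ℝ) ≤ ((bx (n + 2) H ×ˢ Sm).card : ℝ) +
      (((Lr.biUnion fun y => (BD ω ψ c κ H (lf ω y) 0).image (fun x => (x, y))).card : ℕ) : ℝ) := by
    exact_mod_cast hcard
  have hfin : 3 ^ (n + 2) * (3 ^ (n + 1) * (2 / w0 + 1)) *
      ((H : ℝ) ^ (-δ') * (H : ℝ) ^ (2 * (n + 2))) ≤ 3 ^ (n + 2) * (3 ^ (n + 1) * (2 / w0 + 1)) *
      (c + (H : ℝ) ^ (-δ')) * (H : ℝ) ^ (2 * (n + 2)) := by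
    have h1 : 0 ≤ 3 ^ (n + 2) * (3 ^ (n + 1) * (2 / w0 + 1)) * c * (H : ℝ) ^ (2 * (n + 2)) := by
      positivity
    nlinarith
  calc ((BQ ω ψ c κ H).card : ℝ) ≤ _ := hcard'
    _ ≤ _ := add_le_add (hpart1.trans hfin) hpart2
    _ = _ := by ring

end Pool.Agent.NH20.NG
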