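import Mathlib
import Pool.Agent.NH28.Ord
import Pool.Agent.R407.RelDisc
import Pool.Agent.NH20.NG.DilU

/-!
# Elements of bounded height as quotients of small integers
-/

set_option autoImplicit false

open NumberField IsDedekindDomain Finset Module Filter Topology
open scoped NNReal

namespace Pool.Agent.NH20.NG

open Pool.Agent.NH20.NF

variable (K : Type) [Field K] [NumberField K]

/-- every element is a quotient of two integers whose conjugates are bounded by the height -/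
theorem rep : ∃ C : ℝ, 1 ≤ C ∧ ∀ x : K, ∀ R : ℝ, 1 ≤ R → Height.mulHeight₁ x ≤ R →
    ∃ A B : 𝓞 K, B ≠ 0 ∧ x * (B : K) = (A : K) ∧
      ∀ w : InfinitePlace K, w (A : K) ≤ C * R ^ (1 / (Module.finrank ℚ K : ℝ)) ∧
        w (B : K) ≤ C * R ^ (1 / (Module.finrank ℚ K : ℝ)) := by
  classical
  set d : ℕ := Module.finrank ℚ K with hd
  have hd0 : 0 < d := Module.finrank_pos
  set Δ : ℝ := √|(discr K : ℝ)| with hΔ
  have hΔ0 : 0 ≤ Δ := Real.sqrt_nonneg _
  refine ⟨Δ + 1, by linarith, fun x R hR hx => ?_⟩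
  obtain ⟨n, hn, a, ha1, ha2, ha3⟩ := Pool.Agent.R407.exists_den x
  have hn0 : (n : K) ≠ 0 := by exact_mod_cast hn
  have hnR : (0 : ℝ) < n := by exact_mod_cast Nat.pos_of_ne_zero hn
  have hn𝓞 : (n : 𝓞 K) ≠ 0 := by exact_mod_cast hn
  set J : Ideal (𝓞 K) := Ideal.span {(n : 𝓞 K), a} with hJ
  have hnJ : (n : 𝓞 K) ∈ J := Ideal.subset_span (by simp)
  have haJ : a ∈ J := Ideal.subset_span (by simp)
  have hdvd : J ∣ Ideal.span {(n : 𝓞 K)} := by
    rw [Ideal.dvd_iff_le, Ideal.span_singleton_le_iff_mem]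
    exact hnJ
  obtain ⟨I, hI⟩ := hdvd
  have hnorm : Ideal.absNorm I = n := by
    have h1 := congrArg Ideal.absNorm hI
    rw [Ideal.absNorm_span_natCast, map_mul, ha2, RingOfIntegers.rank] at h1
    have h2 : n ^ d = n ^ (d - 1) * n := by
      rw [← pow_succ]
      congr 1
      omega
    rw [← hd, h2] at h1
    exact (Nat.eq_of_mul_eq_mul_left (pow_pos (Nat.pos_of_ne_zero hn) _) h1).symm
  have hI0 : I ≠ ⊥ := by
    intro h
    rw [h, Ideal.absNorm_bot] at hnorm
    exact hn hnorm.symm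
  set t : ℝ := (Δ + 1) * R ^ (1 / (d : ℝ)) with ht
  have ht0 : 0 < t := by positivity
  have htd : t ^ d = (Δ + 1) ^ d * R := by
    rw [ht, mul_pow, ← Real.rpow_natCast (R ^ (1 / (d : ℝ))), ← Real.rpow_mul (by linarith)]
    congr 1
    have : 1 / (d : ℝ) * (d : ℝ) = 1 := by
      have : (d : ℝ) ≠ 0 := by exact_mod_cast hd0.ne'
      field_simp
    rw [this, Real.rpow_one]
  have hmax : ∀ w : InfinitePlace K, (0 : ℝ) < max (w x) 1 := fun w =>
    lt_of_lt_of_le one_pos (le_max_right _ _)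
  let cw : InfinitePlace K → ℝ≥0 := fun w => ⟨t / max (w x) 1, div_nonneg ht0.le (hmax w).le⟩
  have hcw : ∀ w, ((cw w : ℝ≥0) : ℝ) = t / max (w x) 1 := fun w => rfl
  have hprod : ∏ w : InfinitePlace K, ((cw w : ℝ≥0) : ℝ) ^ w.mult =
      t ^ d / ∏ w : InfinitePlace K, max (w x) 1 ^ w.mult := by
    simp_rw [hcw, div_pow]
    rw [Finset.prod_div_distrib]
    congr 1
    rw [Finset.prod_pow_eq_pow_sum, InfinitePlace.sum_mult_eq]
  have hP0 : 0 < ∏ w : InfinitePlace K, max (w x) 1 ^ w.mult :=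
    Finset.prod_pos fun w _ => pow_pos (hmax w) _
  obtain ⟨b, hbI, hb0, hbw⟩ := Pool.Agent.NH28.mink_ideal I hI0 cw (by
    rw [hprod, hnorm, lt_div_iff₀ hP0, htd]
    have h1 : (n : ℝ) * ∏ w : InfinitePlace K, max (w x) 1 ^ w.mult ≤ R := by
      rw [← ha3]
      exact hx
    have h2 : Δ < (Δ + 1) ^ d := by
      have h3 : (Δ + 1) ^ 1 ≤ (Δ + 1) ^ d := pow_le_pow_right₀ (by linarith) hd0
      rw [pow_one] at h3
      linarith
    calc (n : ℝ) * Δ * ∏ w : InfinitePlace K, max (w x) 1 ^ w.mult =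
        Δ * ((n : ℝ) * ∏ w : InfinitePlace K, max (w x) 1 ^ w.mult) := by ring
      _ ≤ Δ * R := mul_le_mul_of_nonneg_left h1 hΔ0
      _ < (Δ + 1) ^ d * R := mul_lt_mul_of_pos_right h2 (by linarith))
  have hba : b * a ∈ Ideal.span {(n : 𝓞 K)} := by
    rw [hI, mul_comm b a]
    exact Ideal.mul_mem_mul haJ hbI
  obtain ⟨b', hb'⟩ := Ideal.mem_span_singleton.1 hba
  have hxb : x * (b : K) = (b' : K) := by
    have h1 : ((b * a : 𝓞 K) : K) = ((n * b' : 𝓞 K) : K) := by rw [hb']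
    push_cast at h1
    have h2 : (n : K) * (x * b) = n * b' := by
      rw [← mul_assoc, ha1, mul_comm (a : K) (b : K)]
      exact h1
    exact mul_left_cancel₀ hn0 h2
  refine ⟨b', b, hb0, hxb, fun w => ⟨?_, ?_⟩⟩
  · rw [← hxb, map_mul]
    have h1 := (hbw w).le
    rw [hcw] at h1
    have h2 : w x ≤ max (w x) 1 := le_max_left _ _
    have h3 : 0 ≤ w x := apply_nonneg w x
    calc w x * w (b : K) ≤ w x * (t / max (w x) 1) := mul_le_mul_of_nonneg_left h1 h3
      _ = (w x / max (w x) 1) * t := by ring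
      _ ≤ 1 * t := by
          apply mul_le_mul_of_nonneg_right _ ht0.le
          rw [div_le_one (hmax w)]
          exact h2
      _ = t := one_mul t
  · have h1 := (hbw w).le
    rw [hcw] at h1
    refine h1.trans ?_
    rw [div_le_iff₀ (hmax w)]
    have h2 : (1 : ℝ) ≤ max (w x) 1 := le_max_right _ _
    nlinarith

/-- coordinates are bounded by the conjugates -/
theorem coord : ∃ (b : Basis (Fin (Module.finrank ℚ K)) ℤ (𝓞 K)) (C : ℝ), 1 ≤ C ∧
    ∀ (A : 𝓞 K) (t : ℝ), 0 ≤ t → (∀ w : InfinitePlace K, w (A : K) ≤ t) →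
      ∀ i, |((b.repr A i : ℤ) : ℝ)| ≤ C * t := by
  classical
  obtain ⟨c, hc⟩ : ∃ c : ℝ, ∀ (α : 𝓞 K) (i : K →+* ℂ),
      ‖(((integralBasis K).reindex (equivReindex K).symm).repr α i : ℂ)‖ ≤
        c * house (algebraMap (𝓞 K) K α) :=
    ⟨_, fun α i => house.basis_repr_norm_le_const_mul_house K α i⟩
  have hcard : Fintype.card (Module.Free.ChooseBasisIndex ℤ (𝓞 K)) = Module.finrank ℚ K := by
    rw [← Module.finrank_eq_card_chooseBasisIndex, RingOfIntegers.rank]
  let e : Module.Free.ChooseBasisIndex ℤ (𝓞 K) ≃ Fin (Module.finrank ℚ K) :=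
    (Fintype.equivFin _).trans (finCongr hcard)
  refine ⟨(RingOfIntegers.basis K).reindex e, |c| + 1, by have := abs_nonneg c; linarith, ?_⟩
  intro a X hX ha l'
  obtain ⟨i, hi⟩ := (equivReindex K).surjective (e.symm l')
  have h1 := hc a i
  simp only [Module.Basis.repr_reindex, Finsupp.mapDomain_equiv_apply,
    integralBasis_repr_apply, eq_intCast, Rat.cast_intCast, Complex.norm_intCast] at h1
  have h2 : house (algebraMap (𝓞 K) K a) ≤ X := by
    refine (pi_norm_le_iff_of_nonneg hX).2 fun φ => ?_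
    have := ha (InfinitePlace.mk φ)
    rw [InfinitePlace.apply] at this
    exact this
  have h4 : c * house (algebraMap (𝓞 K) K a) ≤ (|c| + 1) * X := by
    have h5 := house_nonneg (algebraMap (𝓞 K) K a)
    have h6 := le_abs_self c
    have h7 : c * house (algebraMap (𝓞 K) K a) ≤ |c| * house (algebraMap (𝓞 K) K a) :=
      mul_le_mul_of_nonneg_right h6 h5
    have h8 : |c| * house (algebraMap (𝓞 K) K a) ≤ |c| * X :=
      mul_le_mul_of_nonneg_left h2 (abs_nonneg c)
    nlinarith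
  refine le_trans (le_of_eq ?_) (h1.trans h4)
  rw [Basis.repr_reindex_apply, ← hi]
  simp

end Pool.Agent.NH20.NG
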