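import Mathlib
import Pool.Agent.NH20.NG.Ht
import Pool.Agent.H437R2.Man.LowCount2

/-!
# Bad elements of a real number field, ordered by the Weil height
-/

set_option autoImplicit false

open NumberField Finset Module Filter Topology

namespace Pool.Agent.NH20.NG

open Pool.Agent.NH20.NF

variable {K : Type} [Field K] [NumberField K] (σ : K →+* ℝ)

/-- the real numbers attached to an integral basis -/
noncomputable def om {n : ℕ} (b : Basis (Fin n) ℤ (𝓞 K)) (i : Fin n) : ℝ := σ (b i : K)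

lemma lf_om {n : ℕ} (b : Basis (Fin n) ℤ (𝓞 K)) (z : Fin n → ℤ) :
    lf (om σ b) z = σ ((∑ i, z i • b i : 𝓞 K) : K) := by
  unfold lf om
  push_cast
  rw [map_sum]
  refine Finset.sum_congr rfl fun i _ => ?_
  rw [zsmul_eq_mul, map_mul, map_intCast]

lemma om_LI {n : ℕ} (b : Basis (Fin n) ℤ (𝓞 K)) : LI (om σ b) := by
  intro z hz
  have h1 : lf (om σ b) z = 0 := hz
  rw [lf_om, map_eq_zero] at h1
  have h2 : (∑ i, z i • b i : 𝓞 K) = 0 := by exact_mod_cast h1
  funext i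
  exact Fintype.linearIndependent_iff.1 b.linearIndependent z h2 i

lemma om_alg {n : ℕ} (b : Basis (Fin n) ℤ (𝓞 K)) (i : Fin n) : IsAlgebraic ℚ (om σ b i) := by
  have h1 : IsAlgebraic ℚ (b i : K) := Algebra.IsAlgebraic.isAlgebraic _
  exact h1.algHom σ.toRatAlgHom

/-- the bad elements of height at most `R` -/
def badK (ψ : ℕ → ℝ) (c κ R : ℝ) : Set K :=
  {x | Height.mulHeight₁ x ≤ R ∧ ∃ (q : ℕ) (p : ℤ), 1 ≤ q ∧ (q : ℝ) ≤ R ^ κ ∧
    |σ x - p / q| ≤ c * ψ q / q}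

/-- **The bad elements of height at most `R`** -/
theorem weil (hd : 2 ≤ Module.finrank ℚ K) (κ : ℝ) (hκ : κ < 1) (ψ : ℕ → ℝ) (hanti : Antitone ψ)
    (h0 : ∀ q, 0 ≤ ψ q) (hsum : Summable ψ) :
    ∃ C δ : ℝ, 0 < C ∧ 0 < δ ∧ ∀ c : ℝ, 0 < c → c ≤ 1 → ∀ R : ℝ, 1 ≤ R →
      ((badK σ ψ c κ R).ncard : ℝ) ≤ C * (c + R ^ (-δ)) * R ^ 2 := by
  classical
  obtain ⟨n, hn⟩ : ∃ n, Module.finrank ℚ K = n + 2 := ⟨Module.finrank ℚ K - 2, by omega⟩
  obtain ⟨b0, Cb, hCb, hb⟩ := coord K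
  obtain ⟨Cr, hCr, hrep⟩ := rep K
  set b : Basis (Fin (n + 2)) ℤ (𝓞 K) := b0.reindex (finCongr hn) with hbd
  set d : ℝ := (Module.finrank ℚ K : ℝ) with hdd
  have hdn : d = n + 2 := by rw [hdd, hn]; push_cast; rfl
  have hd0 : 0 < d := by rw [hdn]; positivity
  set κ' : ℝ := d * max κ 0 with hκ'
  have hmax1 : max κ 0 < 1 := max_lt hκ one_pos
  have hmax0 : 0 ≤ max κ 0 := le_max_right _ _
  have hκ'0 : 0 ≤ κ' := by positivity
  have hκ'1 : κ' < n + 2 := by rw [hκ', ← hdn]; nlinarith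
  obtain ⟨C, δ, hC, hδ, hq⟩ := quot (om σ b) (om_alg σ b) (om_LI σ b) κ' hκ'1 ψ hanti h0 hsum
  set C1 : ℝ := Cb * Cr with hC1
  have hC11 : 1 ≤ C1 := by rw [hC1]; nlinarith
  refine ⟨C * (2 * C1) ^ (2 * (n + 2)), δ / d, by positivity, by positivity,
    fun c hc hc1 R hR => ?_⟩
  have hR0 : 0 < R := by linarith
  set T : ℝ := R ^ (1 / d) with hT
  have hT1 : 1 ≤ T := Real.one_le_rpow hR (by positivity)
  set H : ℕ := ⌈C1 * T⌉₊ with hH
  have hHge : C1 * T ≤ H := Nat.le_ceil _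
  have hHge' : T ≤ H := by nlinarith
  have hHle : (H : ℝ) ≤ 2 * C1 * T := by
    have h1 := Nat.ceil_lt_add_one (show 0 ≤ C1 * T by positivity)
    have h2 : 1 ≤ C1 * T := by nlinarith
    have h3 : (H : ℝ) < C1 * T + 1 := h1
    linarith
  have hH1R : (1 : ℝ) ≤ H := by linarith
  have hH1 : 1 ≤ H := by exact_mod_cast hH1R
  have hH0 : (0 : ℝ) < H := by linarith
  -- the map
  let g : (Fin (n + 2) → ℤ) × (Fin (n + 2) → ℤ) → K := fun v =>
    ((∑ i, v.1 i • b i : 𝓞 K) : K) / ((∑ i, v.2 i • b i : 𝓞 K) : K)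
  have hsub : badK σ ψ c κ R ⊆ g '' (BQ (om σ b) ψ c κ' H : Set _) := by
    rintro x ⟨hx, q, p, h1, h2, h3⟩
    obtain ⟨A, B, hB, hxB, hw⟩ := hrep x R hR hx
    have hCrT : 0 ≤ Cr * T := by positivity
    have hAc : ∀ i, |((b.repr A i : ℤ) : ℝ)| ≤ H := by
      intro i
      rw [hbd, Basis.repr_reindex_apply]
      refine (hb A (Cr * T) hCrT (fun w => (hw w).1) _).trans ?_
      rw [← mul_assoc]
      exact hHge
    have hBc : ∀ i, |((b.repr B i : ℤ) : ℝ)| ≤ H := by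
      intro i
      rw [hbd, Basis.repr_reindex_apply]
      refine (hb B (Cr * T) hCrT (fun w => (hw w).2) _).trans ?_
      rw [← mul_assoc]
      exact hHge
    have hBK : (B : K) ≠ 0 := by exact_mod_cast hB
    have hxe : x = (A : K) / (B : K) := by
      rw [eq_div_iff hBK]
      exact hxB
    have hlfA : lf (om σ b) (fun i => b.repr A i) = σ (A : K) := by
      rw [lf_om, b.sum_repr]
    have hlfB : lf (om σ b) (fun i => b.repr B i) = σ (B : K) := by
      rw [lf_om, b.sum_repr]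
    refine ⟨(fun i => b.repr A i, fun i => b.repr B i), ?_, ?_⟩
    · unfold BQ
      rw [Finset.mem_coe, Finset.mem_filter, Finset.mem_product, mem_bx, mem_bx]
      simp only
      refine ⟨⟨fun i => by exact_mod_cast hAc i, fun i => by exact_mod_cast hBc i⟩, ?_, q, h1, ?_,
        p, ?_⟩
      · rw [hlfB]
        exact (map_ne_zero σ).2 hBK
      · refine h2.trans ?_
        have h4 : R ^ κ ≤ R ^ (max κ 0) := Real.rpow_le_rpow_of_exponent_le hR (le_max_left _ _)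
        have h5 : R ^ (max κ 0) = T ^ κ' := by
          rw [hT, ← Real.rpow_mul hR0.le, hκ']
          congr 1
          field_simp
        rw [h5] at h4
        exact h4.trans (Real.rpow_le_rpow (by positivity) hHge' hκ'0)
      · rw [hlfA, hlfB, ← map_div₀, ← hxe]
        have hq0 : (0 : ℝ) < q := by exact_mod_cast (by omega : 0 < q)
        have h4 : (q : ℝ) * σ x - p = q * (σ x - p / q) := by field_simp
        rw [h4, abs_mul, abs_of_pos hq0]
        rw [le_div_iff₀ hq0] at h3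
        linarith
    · simp only [g]
      rw [b.sum_repr, b.sum_repr]
      exact hxe.symm
  have hcard : ((badK σ ψ c κ R).ncard : ℝ) ≤ (BQ (om σ b) ψ c κ' H).card := by
    have h1 := Set.ncard_le_ncard hsub ((Finset.finite_toSet _).image g)
    have h2 := Set.ncard_image_le (f := g) (Finset.finite_toSet (BQ (om σ b) ψ c κ' H))
    rw [Set.ncard_coe_finset] at h2
    exact_mod_cast h1.trans h2
  refine hcard.trans ((hq c hc hc1 H hH1).trans ?_)
  have h1 : (H : ℝ) ^ (-δ) ≤ R ^ (-(δ / d)) := by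
    have h2 : R ^ (-(δ / d)) = T ^ (-δ) := by
      rw [hT, ← Real.rpow_mul hR0.le]
      congr 1
      field_simp
    rw [h2]
    exact Real.rpow_le_rpow_of_nonpos (by positivity) hHge' (by linarith)
  have h2 : (H : ℝ) ^ (2 * (n + 2)) ≤ (2 * C1) ^ (2 * (n + 2)) * R ^ 2 := by
    have h3 : T ^ (2 * (n + 2)) = R ^ 2 := by
      rw [hT, ← Real.rpow_natCast (R ^ (1 / d)), ← Real.rpow_mul hR0.le, ← Real.rpow_natCast R 2]
      congr 1
      rw [hdn]
      push_cast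
      field_simp
    calc (H : ℝ) ^ (2 * (n + 2)) ≤ (2 * C1 * T) ^ (2 * (n + 2)) :=
          pow_le_pow_left₀ hH0.le hHle _
      _ = _ := by rw [mul_pow, h3]
  calc C * (c + (H : ℝ) ^ (-δ)) * (H : ℝ) ^ (2 * (n + 2)) ≤
      C * (c + R ^ (-(δ / d))) * ((2 * C1) ^ (2 * (n + 2)) * R ^ 2) := by
        apply mul_le_mul _ h2 (by positivity) (by positivity)
        apply mul_le_mul_of_nonneg_left _ hC.le
        linarith
    _ = _ := by ring

/-- no bad irrational elements of small height -/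
lemma no_bad (ψ : ℕ → ℝ) (hanti : Antitone ψ) (h0 : ∀ q, 0 ≤ ψ q) (κ R0 : ℝ) (hR0 : 1 ≤ R0) :
    ∃ c0 : ℝ, 0 < c0 ∧ ∀ c : ℝ, 0 < c → c ≤ c0 → ∀ R : ℝ, 1 ≤ R → R ≤ R0 →
      ∀ x ∈ badK σ ψ c κ R, ¬ Irrational (σ x) := by
  classical
  have hfin : {x : K | Height.mulHeight₁ x ≤ R0}.Finite := NumberField.finite_setOfPred_mulHeight₁_le K R0
  set F : Finset (K × ℕ) := (hfin.toFinset ×ˢ Icc 1 ⌊R0 ^ (max κ 0)⌋₊).filter
    (fun w => Irrational (σ w.1)) with hF
  obtain ⟨c1, hc1, hmin⟩ := exists_min_pos F (fun w => nd (w.2 * σ w.1)) (by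
    rintro ⟨x, q⟩ hw
    rw [hF, Finset.mem_filter, Finset.mem_product, Finset.mem_Icc] at hw
    simp only at hw ⊢
    unfold nd
    rw [abs_pos]
    intro h
    have h1 : Irrational ((q : ℝ) * σ x) := hw.2.natCast_mul (by omega)
    exact h1 ⟨(round ((q : ℝ) * σ x) : ℤ), by push_cast; linarith⟩)
  have hψ0 := h0 0
  refine ⟨c1 / (2 * (ψ 0 + 1)), by positivity, ?_⟩
  rintro c hc hcc R hR hRR0 x ⟨hx, q, p, h1, h2, h3⟩ hirr
  have hq0 : (0 : ℝ) < q := by exact_mod_cast (by omega : 0 < q)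
  have h4 := hmin (x, q) (by
    rw [hF, Finset.mem_filter, Finset.mem_product, Finset.mem_Icc]
    refine ⟨⟨?_, h1, ?_⟩, hirr⟩
    · rw [Set.Finite.mem_toFinset]
      exact hx.trans hRR0
    · apply Nat.le_floor
      refine h2.trans ?_
      refine (Real.rpow_le_rpow_of_exponent_le hR (le_max_left κ 0)).trans ?_
      exact Real.rpow_le_rpow (by linarith) hRR0 (le_max_right _ _))
  simp only at h4
  have h5 : nd (q * σ x) ≤ |(q : ℝ) * σ x - p| := nd_le _ _
  have h6 : (q : ℝ) * σ x - p = q * (σ x - p / q) := by field_simp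
  rw [h6, abs_mul, abs_of_pos hq0] at h5
  rw [le_div_iff₀ hq0] at h3
  have h7 : c * ψ q ≤ c1 / 2 := by
    have h9 : ψ q ≤ ψ 0 := hanti (Nat.zero_le q)
    calc c * ψ q ≤ c1 / (2 * (ψ 0 + 1)) * (ψ 0 + 1) := by
          apply mul_le_mul hcc (by linarith) (h0 q) (by positivity)
      _ = c1 / 2 := by field_simp
  nlinarith

/-- **Proportions** -/
theorem weil_eta (hd : 2 ≤ Module.finrank ℚ K) (κ : ℝ) (hκ : κ < 1) (ψ : ℕ → ℝ) (hanti : Antitone ψ)
    (h0 : ∀ q, 0 ≤ ψ q) (hsum : Summable ψ) (η : ℝ) (hη : 0 < η) :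
    ∃ c : ℝ, 0 < c ∧ ∀ R : ℝ, 1 ≤ R →
      ({x | x ∈ badK σ ψ c κ R ∧ Irrational (σ x)}.ncard : ℝ) ≤
        η * ({x : K | Height.mulHeight₁ x ≤ R}.ncard : ℝ) := by
  classical
  obtain ⟨C, δ, hC, hδ, hw⟩ := weil σ hd κ hκ ψ hanti h0 hsum
  obtain ⟨cl, Rl, hcl, hRl, hlow⟩ := Pool.Agent.H437R2.Man.Low.count_lower K
  have h1 : Tendsto (fun R : ℝ => R ^ (-δ)) atTop (𝓝 0) := tendsto_rpow_neg_atTop hδ
  have h2 : ∀ᶠ R : ℝ in atTop, R ^ (-δ) < η * cl / (2 * C) :=
    h1.eventually_lt_const (by positivity)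
  obtain ⟨R1, hR1⟩ := Filter.eventually_atTop.1 h2
  set R0 : ℝ := max (max Rl R1) 1 with hR0
  obtain ⟨c0, hc0, hno⟩ := no_bad σ ψ hanti h0 κ R0 (le_max_right _ _)
  set c : ℝ := min (min c0 1) (η * cl / (2 * C)) with hc
  have hcp : 0 < c := lt_min (lt_min hc0 one_pos) (by positivity)
  have hcc0 : c ≤ c0 := (min_le_left _ _).trans (min_le_left _ _)
  have hcc1 : c ≤ 1 := (min_le_left _ _).trans (min_le_right _ _)
  have hcc2 : c ≤ η * cl / (2 * C) := min_le_right _ _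
  refine ⟨c, hcp, fun R hR => ?_⟩
  have hfinR : {x : K | Height.mulHeight₁ x ≤ R}.Finite := NumberField.finite_setOfPred_mulHeight₁_le K R
  rcases le_total R R0 with h | h
  · have h3 : {x | x ∈ badK σ ψ c κ R ∧ Irrational (σ x)} = ∅ := by
      rw [Set.eq_empty_iff_forall_notMem]
      rintro x ⟨h4, h5⟩
      exact hno c hcp hcc0 R hR h x h4 h5
    rw [h3, Set.ncard_empty, Nat.cast_zero]
    positivity
  · have h3 : ({x | x ∈ badK σ ψ c κ R ∧ Irrational (σ x)}.ncard : ℝ) ≤ (badK σ ψ c κ R).ncard := by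
      apply Nat.cast_le.2
      exact Set.ncard_le_ncard (fun x hx => hx.1) (hfinR.subset fun x hx => hx.1)
    refine h3.trans ((hw c hcp hcc1 R hR).trans ?_)
    obtain ⟨F, hF1, hF2⟩ := hlow R (le_trans (le_trans (le_max_left _ _) (le_max_left _ _)) h)
    have h4 : cl * R ^ 2 ≤ ({x : K | Height.mulHeight₁ x ≤ R}.ncard : ℝ) := by
      refine hF2.trans ?_
      have h5 : (F : Set K) ⊆ {x : K | Height.mulHeight₁ x ≤ R} := fun x hx => hF1 x hx
      have h6 := Set.ncard_le_ncard h5 hfinR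
      rw [Set.ncard_coe_finset] at h6
      exact_mod_cast h6
    have h5 := (hR1 R (le_trans (le_trans (le_max_right _ _) (le_max_left _ _)) h)).le
    calc C * (c + R ^ (-δ)) * R ^ 2 ≤ C * (η * cl / (2 * C) + η * cl / (2 * C)) * R ^ 2 := by
          apply mul_le_mul_of_nonneg_right _ (by positivity)
          apply mul_le_mul_of_nonneg_left _ hC.le
          linarith
      _ = η * (cl * R ^ 2) := by field_simp; ring
      _ ≤ _ := mul_le_mul_of_nonneg_left h4 hη.le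

end Pool.Agent.NH20.NG
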